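import Mathlib

/-!
# Commuting elements and normal subgroups in free groups
-/

namespace Pool.Agent.Lib.Helper67.BA

open Subgroup

universe u

/-- A homomorphism onto a nonabelian subgroup of a free group is split injective on some free
group of rank two. -/
theorem exists_free_of_noncomm {L Z : Type} [Group L] (f : L →* FreeGroup Z) (x y : L)
    (h : f x * f y ≠ f y * f x) :
    ∃ ψ : FreeGroup Bool →* L, Function.Injective (f.comp ψ) := by
  classical
  obtain ⟨ι, ⟨b⟩⟩ := (inferInstance : IsFreeGroup f.range)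
  have h1 : ∃ i j : ι, i ≠ j := by
    by_contra hcon
    push Not at hcon
    have h2 : IsCyclic (FreeGroup ι) := by
      rcases isEmpty_or_nonempty ι with he | ⟨⟨i⟩⟩
      · infer_instance
      · have : Unique ι := ⟨⟨i⟩, fun j => hcon j i⟩
        infer_instance
    have h3 : ∀ a b : FreeGroup ι, a * b = b * a := by
      intro a b
      obtain ⟨g, hg⟩ := h2.exists_generator
      obtain ⟨p, rfl⟩ := hg a
      obtain ⟨q, rfl⟩ := hg b
      exact (Commute.refl g).zpow_zpow p q
    apply h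
    have h4 := h3 (b.repr ⟨f x, x, rfl⟩) (b.repr ⟨f y, y, rfl⟩)
    rw [← map_mul, ← map_mul] at h4
    exact congrArg Subtype.val (b.repr.injective h4)
  obtain ⟨i, j, hij⟩ := h1
  obtain ⟨u, hu⟩ := (b i).2
  obtain ⟨v, hv⟩ := (b j).2
  refine ⟨FreeGroup.lift fun c => if c then u else v, ?_⟩
  let e : Bool → ι := fun c => if c then i else j
  have he : Function.Injective e := by
    intro c d hcd
    cases c <;> cases d <;> simp_all [e]
  have hcomp : (f.comp (FreeGroup.lift fun c => if c then u else v)) =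
      (f.range.subtype.comp b.repr.symm.toMonoidHom).comp (FreeGroup.map e) := by
    ext c
    cases c
    · simp only [MonoidHom.comp_apply, FreeGroup.lift_apply_of, FreeGroup.map.of, e]
      simp only [Bool.false_eq_true, if_false]
      exact hv
    · simp only [MonoidHom.comp_apply, FreeGroup.lift_apply_of, FreeGroup.map.of, e]
      simp only [if_true]
      exact hu
  rw [hcomp]
  exact (f.range.subtype_injective.comp b.repr.symm.injective).comp (FreeGroup.map_injective he)

/-- A group with a homomorphism onto a nonabelian subgroup of a free group maps onto the free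
group of rank two. -/
theorem exists_surj_of_noncomm {L : Type u} {Z : Type} [Group L] (f : L →* FreeGroup Z) (x y : L)
    (h : f x * f y ≠ f y * f x) : ∃ g : L →* FreeGroup Bool, Function.Surjective g := by
  classical
  obtain ⟨ι, ⟨b⟩⟩ := (inferInstance : IsFreeGroup f.range)
  have h1 : ∃ i j : ι, i ≠ j := by
    by_contra hcon
    push Not at hcon
    have h2 : IsCyclic (FreeGroup ι) := by
      rcases isEmpty_or_nonempty ι with he | ⟨⟨i⟩⟩
      · infer_instance
      · have : Unique ι := ⟨⟨i⟩, fun j => hcon j i⟩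
        infer_instance
    have h3 : ∀ a b : FreeGroup ι, a * b = b * a := by
      intro a b
      obtain ⟨g, hg⟩ := h2.exists_generator
      obtain ⟨p, rfl⟩ := hg a
      obtain ⟨q, rfl⟩ := hg b
      exact (Commute.refl g).zpow_zpow p q
    apply h
    have h4 := h3 (b.repr ⟨f x, x, rfl⟩) (b.repr ⟨f y, y, rfl⟩)
    rw [← map_mul, ← map_mul] at h4
    exact congrArg Subtype.val (b.repr.injective h4)
  obtain ⟨i, j, hij⟩ := h1
  let g₁ : FreeGroup ι →* FreeGroup Bool := FreeGroup.lift fun k =>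
    if k = i then FreeGroup.of true else FreeGroup.of false
  have hg₁ : Function.Surjective g₁ := by
    rw [← MonoidHom.range_eq_top, eq_top_iff, ← FreeGroup.closure_range_of, Subgroup.closure_le]
    rintro _ ⟨c, rfl⟩
    cases c
    · exact ⟨FreeGroup.of j, by simp [g₁, Ne.symm hij]⟩
    · exact ⟨FreeGroup.of i, by simp [g₁]⟩
  refine ⟨g₁.comp (b.repr.toMonoidHom.comp f.rangeRestrict), ?_⟩
  exact hg₁.comp (b.repr.surjective.comp f.rangeRestrict_surjective)

/-- abelian subgroups are cyclic -/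
theorem cyclic_of_comm {Z : Type} (K : Subgroup (FreeGroup Z))
    (h : ∀ x ∈ K, ∀ y ∈ K, x * y = y * x) : ∃ c ∈ K, ∀ x ∈ K, ∃ n : ℤ, x = c ^ n := by
  classical
  obtain ⟨ι, ⟨b⟩⟩ := (inferInstance : IsFreeGroup K)
  have h1 : ∀ i j : ι, i = j := by
    intro i j
    by_contra hij
    have h2 := h (b i) (b i).2 (b j) (b j).2
    have h3 : b i * b j = b j * b i := Subtype.ext h2
    have h4 := congrArg b.repr h3
    rw [map_mul, map_mul, FreeGroupBasis.repr_apply_coe, FreeGroupBasis.repr_apply_coe] at h4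
    have h5 := congrArg FreeGroup.toWord h4
    simp only [FreeGroup.of, FreeGroup.mul_mk, FreeGroup.toWord_mk] at h5
    simp [FreeGroup.reduce, hij, Ne.symm hij] at h5
  have h2 : IsCyclic (FreeGroup ι) := by
    rcases isEmpty_or_nonempty ι with he | ⟨⟨i⟩⟩
    · infer_instance
    · have : Unique ι := ⟨⟨i⟩, fun j => h1 j i⟩
      infer_instance
  obtain ⟨g, hg⟩ := h2.exists_generator
  refine ⟨b.repr.symm g, (b.repr.symm g).2, fun x hx => ?_⟩
  obtain ⟨n, hn⟩ := hg (b.repr ⟨x, hx⟩)
  refine ⟨n, ?_⟩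
  have h3 : (⟨x, hx⟩ : K) = (b.repr.symm g) ^ n := by
    apply b.repr.injective
    rw [map_zpow, MulEquiv.apply_symm_apply]
    exact hn.symm
  exact congrArg Subtype.val h3

variable {Z : Type}

theorem commute_of_zpow {x y : FreeGroup Z} {k : ℤ} (hk : k ≠ 0) (h : Commute (x ^ k) y) :
    Commute x y := by
  have h1 : (y * x * y⁻¹) ^ k = x ^ k := by
    rw [conj_zpow, ← h.eq, mul_inv_cancel_right]
  have h2 := zpow_left_injective hk h1
  have h3 : y * x = x * y := by
    rw [← mul_inv_eq_iff_eq_mul]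
    exact h2
  exact h3.symm

/-- commutation is transitive on nontrivial elements -/
theorem commute_trans {a b d : FreeGroup Z} (hb : b ≠ 1) (hab : Commute a b)
    (hbd : Commute b d) : Commute a d := by
  obtain ⟨c, -, hc⟩ := cyclic_of_comm (closure {a, b}) (by
    have h1 : ∀ x ∈ ({a, b} : Set (FreeGroup Z)), ∀ y ∈ ({a, b} : Set (FreeGroup Z)),
        x * y = y * x := by
      rintro x (rfl | rfl) y (rfl | rfl)
      · rfl
      · exact hab.eq
      · exact hab.eq.symm
      · rfl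
    intro x hx y hy
    have h2 := Subgroup.closure_induction₂ (p := fun x y _ _ => x * y = y * x)
      (k := ({a, b} : Set (FreeGroup Z)))
      (fun x y hx hy => h1 x hx y hy) (fun x _ => by simp) (fun x _ => by simp)
      (fun x y z _ _ _ h1 h2 => (Commute.mul_left (show Commute x z from h1)
        (show Commute y z from h2)).eq)
      (fun x y z _ _ _ h1 h2 => (Commute.mul_right (show Commute z x from h1)
        (show Commute z y from h2)).eq)
      (fun x y _ _ h => (Commute.inv_left (show Commute x y from h)).eq)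
      (fun x y _ _ h => (Commute.inv_right (show Commute x y from h)).eq) hx hy
    exact h2)
  obtain ⟨i, hi⟩ := hc a (subset_closure (by simp))
  obtain ⟨j, hj⟩ := hc b (subset_closure (by simp))
  have hj0 : j ≠ 0 := by
    rintro rfl
    exact hb (by rw [hj, zpow_zero])
  have h1 : Commute c d := commute_of_zpow hj0 (by rw [← hj]; exact hbd)
  rw [hi]
  exact h1.zpow_left i

/-- Two nontrivial normal subgroups of a nonabelian subgroup of a free group meet
nontrivially. -/
theorem inf_ne_bot {L : Subgroup (FreeGroup Z)} (hL : ∃ x ∈ L, ∃ y ∈ L, x * y ≠ y * x)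
    (N₁ N₂ : Subgroup L) [N₁.Normal] [N₂.Normal] (h1 : N₁ ≠ ⊥) (h2 : N₂ ≠ ⊥) :
    N₁ ⊓ N₂ ≠ ⊥ := by
  intro h3
  have hcomm : ∀ a ∈ N₁, ∀ b ∈ N₂, Commute (a : FreeGroup Z) (b : FreeGroup Z) := by
    intro a ha b hb
    have h4 := Subgroup.commute_of_normal_of_disjoint N₁ N₂ inferInstance inferInstance
      (disjoint_iff.2 h3) a b ha hb
    exact congrArg Subtype.val h4.eq
  obtain ⟨a, ha, ha1⟩ : ∃ a, a ∈ N₁ ∧ a ≠ 1 := by
    obtain ⟨a, ha⟩ := Subgroup.ne_bot_iff_exists_ne_one.1 h1
    exact ⟨a.1, a.2, fun h => ha (Subtype.ext h)⟩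
  obtain ⟨b, hb, hb1⟩ : ∃ a, a ∈ N₂ ∧ a ≠ 1 := by
    obtain ⟨a, ha⟩ := Subgroup.ne_bot_iff_exists_ne_one.1 h2
    exact ⟨a.1, a.2, fun h => ha (Subtype.ext h)⟩
  have ha1' : (a : FreeGroup Z) ≠ 1 := fun h => ha1 (Subtype.ext h)
  have hb1' : (b : FreeGroup Z) ≠ 1 := fun h => hb1 (Subtype.ext h)
  obtain ⟨c, hcK, hc⟩ := cyclic_of_comm (N₂.map L.subtype) (by
    rintro _ ⟨x, hx, rfl⟩ _ ⟨y, hy, rfl⟩
    exact (commute_trans ha1' (hcomm a ha x hx).symm (hcomm a ha y hy)).eq)
  obtain ⟨c', hc', rfl⟩ := hcK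
  have hc1 : (L.subtype c') ≠ 1 := by
    intro h
    obtain ⟨n, hn⟩ := hc b ⟨b, hb, rfl⟩
    apply hb1'
    rw [hn, h, one_zpow]
  have hcent : ∀ f ∈ L, Commute f (L.subtype c') := by
    intro f hf
    obtain ⟨p, hp⟩ := hc (f * L.subtype c' * f⁻¹)
      ⟨⟨f, hf⟩ * c' * ⟨f, hf⟩⁻¹, ‹N₂.Normal›.conj_mem _ hc' _, by simp⟩
    obtain ⟨q, hq⟩ := hc (f⁻¹ * L.subtype c' * f)
      ⟨⟨f, hf⟩⁻¹ * c' * ⟨f, hf⟩, by
        have := ‹N₂.Normal›.conj_mem _ hc' (⟨f, hf⟩⁻¹)
        rwa [inv_inv] at this, by simp⟩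
    set c := L.subtype c'
    have h4 : c = c ^ (p * q) := by
      have h5 : f * (f⁻¹ * c * f) * f⁻¹ = c := by group
      rw [hq, ← conj_zpow, hp, ← zpow_mul] at h5
      exact h5.symm
    have h6 : p * q = 1 := by
      have h7 : c ^ (p * q - 1) = 1 := by
        rw [zpow_sub_one, ← h4, mul_inv_cancel]
      by_contra hne
      apply hc1
      have h8 : p * q - 1 ≠ 0 := sub_ne_zero.2 hne
      apply zpow_left_injective h8
      simp only
      rw [h7, one_zpow]
    have h7 : p * p = 1 := by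
      rcases Int.eq_one_or_neg_one_of_mul_eq_one h6 with h | h <;> rw [h] <;> norm_num
    have h8 : Commute (f ^ (2 : ℤ)) c := by
      have h9 : f ^ (2 : ℤ) * c * (f ^ (2 : ℤ))⁻¹ = c := by
        have h10 : f ^ (2 : ℤ) * c * (f ^ (2 : ℤ))⁻¹ = f * (f * c * f⁻¹) * f⁻¹ := by
          rw [zpow_two, mul_inv_rev]
          simp only [mul_assoc]
        rw [h10, hp, ← conj_zpow, hp, ← zpow_mul, h7, zpow_one]
      exact mul_inv_eq_iff_eq_mul.1 h9
    exact commute_of_zpow two_ne_zero h8
  obtain ⟨x, hx, y, hy, hxy⟩ := hL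
  exact hxy (commute_trans hc1 (hcent x hx) (hcent y hy).symm).eq

theorem iInf_ne_bot {L : Subgroup (FreeGroup Z)} (hL : ∃ x ∈ L, ∃ y ∈ L, x * y ≠ y * x)
    {ι : Type} (s : Finset ι) (N : ι → Subgroup L) (hN : ∀ i, (N i).Normal)
    (h1 : ∀ i ∈ s, N i ≠ ⊥) : ∃ x : L, x ≠ 1 ∧ ∀ i ∈ s, x ∈ N i := by
  classical
  have key : (∃ K : Subgroup L, K.Normal ∧ K ≠ ⊥ ∧ ∀ i ∈ s, K ≤ N i) := by
    induction s using Finset.induction_on with
    | empty =>
      refine ⟨⊤, inferInstance, ?_, by simp⟩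
      intro h
      obtain ⟨x, hx, y, hy, hxy⟩ := hL
      apply hxy
      have h2 : (⟨x, hx⟩ : L) ∈ (⊥ : Subgroup L) := h ▸ Subgroup.mem_top _
      rw [Subgroup.mem_bot] at h2
      have h3 : x = 1 := congrArg Subtype.val h2
      rw [h3, one_mul, mul_one]
    | insert i s _ ih =>
      obtain ⟨K, hK1, hK2, hK3⟩ := ih fun j hj => h1 j (Finset.mem_insert_of_mem hj)
      have := hN i
      refine ⟨K ⊓ N i, inferInstance, inf_ne_bot hL K (N i) hK2
        (h1 i (Finset.mem_insert_self _ _)), ?_⟩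
      intro j hj
      rcases Finset.mem_insert.1 hj with rfl | hj
      · exact inf_le_right
      · exact inf_le_left.trans (hK3 j hj)
  obtain ⟨K, -, hK2, hK3⟩ := key
  obtain ⟨x, hx⟩ := Subgroup.ne_bot_iff_exists_ne_one.1 hK2
  exact ⟨x.1, fun h => hx (Subtype.ext h), fun i hi => hK3 i hi x.2⟩

end Pool.Agent.Lib.Helper67.BA
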