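import Pool.Agent.Lib.Helper67.FCC.Growth
import Pool.Agent.Lib.Helper67.FCC.Classes
import Pool.Agent.Lib.Helper67.BA.FreeLemmas

/-!
# Monsters, virtually abelian groups and large groups
-/

namespace Pool.Agent.Lib.Helper67.BA

open Pool.Agent.Lib.Helper67.FCC

universe u

/-- The properties (2)-(7) of the problem. -/
def MonsterProperty (k : ℕ) (G : Type u) [Group G] : Prop :=
  (k = 2 ∧ ∃ n : ℕ, 1 ≤ n ∧ ∀ g : G, g ^ n = 1) ∨
  (k = 3 ∧ ¬ IsCyclic G ∧ ∀ H : Subgroup G, H ≠ ⊤ → IsCyclic H) ∨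
  (k = 4 ∧ ∃ p : ℕ, p.Prime ∧ ∀ H : Subgroup G, H ≠ ⊥ → H ≠ ⊤ → IsCyclic H ∧ Nat.card H = p) ∨
  (k = 5 ∧ ∀ g : G, ∀ m : ℕ, 1 ≤ m → ∃ h : G, h ^ m = g) ∨
  (k = 6 ∧ Finite (ConjClasses G)) ∨
  (k = 7 ∧ ∃ S : Set G, S.Finite ∧ Subgroup.closure S = ⊤ ∧
    (∀ P : Polynomial ℝ, ∃ r : ℕ, P.eval (r : ℝ) < (Set.ncard {x : G | InBall S r x} : ℝ)) ∧
    ∀ c : ℝ, 0 < c → ∃ r : ℕ, (Set.ncard {x : G | InBall S r x} : ℝ) < Real.exp (c * r))

/-- `G` is a monster of type `(k)`, for `k` from 2 to 7. -/
def IsMonster (k : ℕ) (G : Type u) [Group G] : Prop :=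
  Group.FG G ∧ Infinite G ∧ MonsterProperty k G

/-- virtually abelian -/
def VirtAb (G : Type u) [Group G] : Prop :=
  ∃ A : Subgroup G, A.FiniteIndex ∧ ∀ x ∈ A, ∀ y ∈ A, x * y = y * x

/-- large -/
def Large (G : Type u) [Group G] : Prop :=
  ∃ H : Subgroup G, H.FiniteIndex ∧ ∃ f : H →* FreeGroup Bool, Function.Surjective f

/-- residually finite -/
def RF (G : Type u) [Group G] : Prop :=
  ∀ g : G, g ≠ 1 → ∃ N : Subgroup G, N.Normal ∧ N.FiniteIndex ∧ g ∉ N

variable {G : Type u} [Group G]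

/-! ### growth -/

theorem exp_bound {N : ℕ → ℕ} {D : ℕ} (hD1 : 1 ≤ D) (hcard : ∀ r, 2 ^ (r / D) ≤ N r)
    (hone : ∀ r, 1 ≤ r → 2 ≤ N r) :
    ∃ c : ℝ, 0 < c ∧ ∀ r : ℕ, Real.exp (c * r) ≤ (N r : ℝ) := by
  have hD : (0 : ℝ) < D := by exact_mod_cast hD1
  refine ⟨Real.log 2 / (2 * D), div_pos (Real.log_pos (by norm_num)) (by positivity), fun r => ?_⟩
  have hexp : ∀ m : ℕ, Real.exp (Real.log 2 * m) = 2 ^ m := by
    intro m
    rw [mul_comm, Real.exp_nat_mul, Real.exp_log (by norm_num)]
  rcases Nat.lt_or_ge r D with hlt | hge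
  · rcases Nat.eq_zero_or_pos r with h0 | h0
    · subst h0
      simp only [Nat.cast_zero, mul_zero, Real.exp_zero]
      have h1 := hcard 0
      simp only [Nat.zero_div, pow_zero] at h1
      exact_mod_cast h1
    · have h1 : Real.log 2 / (2 * D) * r ≤ Real.log 2 * (1 : ℕ) := by
        rw [div_mul_eq_mul_div, div_le_iff₀ (by positivity)]
        have h2 : (r : ℝ) ≤ D := by exact_mod_cast hlt.le
        have h3 : 0 < Real.log 2 := Real.log_pos (by norm_num)
        push_cast
        nlinarith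
      calc Real.exp (Real.log 2 / (2 * D) * r) ≤ Real.exp (Real.log 2 * (1 : ℕ)) :=
            Real.exp_le_exp.2 h1
        _ = 2 ^ 1 := hexp 1
        _ = (2 : ℕ) := by norm_num
        _ ≤ _ := by exact_mod_cast hone r h0
  · have h1 : Real.log 2 / (2 * D) * r ≤ Real.log 2 * (r / D : ℕ) := by
      rw [div_mul_eq_mul_div, div_le_iff₀ (by positivity)]
      have h3 : 0 < Real.log 2 := Real.log_pos (by norm_num)
      have h4 : r ≤ (r / D) * (2 * D) := by
        have h5 := Nat.div_add_mod r D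
        have h6 : r % D < D := Nat.mod_lt _ (by omega)
        have h7 : 1 ≤ r / D := Nat.div_pos hge (by omega)
        nlinarith
      have h8 : (r : ℝ) ≤ ((r / D : ℕ) : ℝ) * (2 * D) := by exact_mod_cast h4
      nlinarith
    calc Real.exp (Real.log 2 / (2 * D) * r) ≤ Real.exp (Real.log 2 * (r / D : ℕ)) :=
          Real.exp_le_exp.2 h1
      _ = 2 ^ (r / D) := hexp _
      _ ≤ _ := by exact_mod_cast hcard r

/-- positive words -/
def posW (l : List Bool) : FreeGroup Bool := (l.map FreeGroup.of).prod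

theorem posW_toWord (l : List Bool) : (posW l).toWord = l.map (fun b => (b, true)) := by
  have h1 : posW l = FreeGroup.mk (l.map (fun b => (b, true))) := by
    induction l with
    | nil => rfl
    | cons b l ih =>
      rw [posW, List.map_cons, List.prod_cons]
      rw [posW] at ih
      rw [ih, FreeGroup.of, FreeGroup.mul_mk]
      rfl
  rw [h1, FreeGroup.toWord_mk]
  clear h1
  induction l with
  | nil => rfl
  | cons b l ih =>
    rw [List.map_cons, FreeGroup.reduce.cons, ih]
    cases l with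
    | nil => rfl
    | cons c l => simp

theorem posW_inj {l l' : List Bool} (h : posW l = posW l') : l = l' := by
  have h1 := congrArg FreeGroup.toWord h
  rw [posW_toWord, posW_toWord] at h1
  exact List.map_injective_iff.2 (fun a b h => by simpa using h) h1

/-- Large groups have exponential growth. -/
theorem Large.growth (hG : Large G) {S : Set G} (hSf : S.Finite)
    (hS : Subgroup.closure S = ⊤) :
    ∃ c : ℝ, 0 < c ∧ ∀ r : ℕ, Real.exp (c * r) ≤ (Set.ncard {x : G | InBall S r x} : ℝ) := by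
  classical
  obtain ⟨H, -, f, hf⟩ := hG
  choose s hs using hf
  let a : Bool → G := fun b => (s (FreeGroup.of b) : G)
  choose L hL using fun b => exists_inBall hS (a b)
  let W : List Bool → G := fun l => (l.map a).prod
  have hWH : ∀ l : List Bool, ∃ h : H, (h : G) = W l ∧ f h = posW l := by
    intro l
    induction l with
    | nil => exact ⟨1, rfl, map_one f⟩
    | cons b l ih =>
      obtain ⟨h, h1, h2⟩ := ih
      refine ⟨s (FreeGroup.of b) * h, ?_, ?_⟩
      · rw [Subgroup.coe_mul, h1]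
        simp [W, a]
      · rw [map_mul, h2, hs]
        simp [posW]
  have hW : Function.Injective W := by
    intro l l' h
    obtain ⟨x, hx1, hx2⟩ := hWH l
    obtain ⟨y, hy1, hy2⟩ := hWH l'
    have h1 : x = y := Subtype.ext (by rw [hx1, hy1, h])
    apply posW_inj
    rw [← hx2, ← hy2, h1]
  let D : ℕ := L true + L false + 1
  have hball : ∀ l : List Bool, InBall S (l.length * (L true + L false)) (W l) := by
    intro l
    induction l with
    | nil => simpa [W] using inBall_one S 0
    | cons b l ih =>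
      have h1 : W (b :: l) = a b * W l := by simp [W]
      rw [h1]
      refine ((hL b).mul ih).mono ?_
      rw [List.length_cons]
      have h2 : L b ≤ L true + L false := by cases b <;> omega
      calc L b + l.length * (L true + L false) ≤
            (L true + L false) + l.length * (L true + L false) := Nat.add_le_add_right h2 _
        _ = (l.length + 1) * (L true + L false) := by ring
  apply exp_bound (D := D) (by omega)
  · intro r
    let F : List.Vector Bool (r / D) → G := fun v => W v.1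
    have hF : Function.Injective F := by
      intro v w h
      exact Subtype.ext (hW h)
    have h2 : Set.range F ⊆ {x : G | InBall S r x} := by
      rintro _ ⟨v, rfl⟩
      refine (hball v.1).mono ?_
      rw [v.2]
      calc r / D * (L true + L false) ≤ r / D * D := Nat.mul_le_mul_left _ (by omega)
        _ ≤ r := Nat.div_mul_le_self r D
    have h3 := Set.ncard_le_ncard h2 (finite_ball hSf r)
    have h4 : Set.ncard (Set.range F) = 2 ^ (r / D) := by
      rw [← Set.image_univ, Set.ncard_image_of_injective _ hF, Set.ncard_univ,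
        Nat.card_eq_fintype_card, card_vector, Fintype.card_bool]
    rwa [h4] at h3
  · intro r hr
    have h1 : ∃ s ∈ S, s ≠ 1 := by
      by_contra hcon
      push Not at hcon
      have h2 : Subgroup.closure S ≤ ⊥ := by
        rw [Subgroup.closure_le]
        intro s hs
        exact Subgroup.mem_bot.2 (hcon s hs)
      rw [hS] at h2
      have h3 : W [true] = 1 := Subgroup.mem_bot.1 (h2 (Subgroup.mem_top _))
      have h4 : W [] = 1 := rfl
      have h5 := hW (h3.trans h4.symm)
      simp at h5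
    obtain ⟨s, hs, hs1⟩ := h1
    have h2 : ({s, 1} : Set G) ⊆ {x : G | InBall S r x} := by
      rintro x (rfl | rfl)
      · exact ⟨[x], by simpa using hr, by simpa using Or.inl hs, by simp⟩
      · exact inBall_one S r
    have h3 := Set.ncard_le_ncard h2 (finite_ball hSf r)
    rwa [Set.ncard_pair hs1] at h3

/-! ### large groups are no monsters -/

theorem fg_of_abelian_aux {a b : FreeGroup Bool} (ha : a = FreeGroup.of true)
    (hb : b = FreeGroup.of false) {m n : ℕ} (hm : m ≠ 0) (hn : n ≠ 0) :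
    a ^ m * b ^ n ≠ b ^ n * a ^ m := by
  intro h
  have h1 : Commute a (b ^ n) := by
    apply commute_of_zpow (k := (m : ℤ)) (by exact_mod_cast hm)
    rw [zpow_natCast]
    exact h
  have h2 : Commute b a := by
    apply commute_of_zpow (k := (n : ℤ)) (by exact_mod_cast hn)
    rw [zpow_natCast]
    exact h1.symm
  have h3 := h2.eq
  subst ha hb
  have h4 := congrArg FreeGroup.toWord h3
  revert h4
  decide

/-- the homomorphism to the integers sending both generators to `1` -/
def toZ : FreeGroup Bool →* Multiplicative ℤ := FreeGroup.lift fun _ => Multiplicative.ofAdd 1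

theorem toZ_of (b : Bool) : toZ (FreeGroup.of b) = Multiplicative.ofAdd 1 := by simp [toZ]

/-- Large groups have a proper nonabelian subgroup. -/
theorem Large.exists_proper (hG : Large G) : ∃ K : Subgroup G, K ≠ ⊤ ∧
    ∃ x ∈ K, ∃ y ∈ K, x * y ≠ y * x := by
  obtain ⟨H, -, f, hf⟩ := hG
  -- preimage of the even elements
  let E : Subgroup (FreeGroup Bool) := (Subgroup.zpowers (Multiplicative.ofAdd (2 : ℤ))).comap toZ
  have hE : ∀ b : Bool, (FreeGroup.of b) ^ 2 ∈ E := by
    intro b
    show toZ ((FreeGroup.of b) ^ 2) ∈ Subgroup.zpowers (Multiplicative.ofAdd (2 : ℤ))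
    rw [map_pow, toZ_of]
    exact ⟨1, by simp [← ofAdd_nsmul]⟩
  have hE2 : FreeGroup.of true ∉ E := by
    intro h
    have h1 : toZ (FreeGroup.of true) ∈ Subgroup.zpowers (Multiplicative.ofAdd (2 : ℤ)) := h
    rw [toZ_of] at h1
    obtain ⟨n, hn⟩ := h1
    simp only [← ofAdd_zsmul] at hn
    have h2 := Multiplicative.ofAdd.injective hn
    simp only [smul_eq_mul] at h2
    omega
  refine ⟨(E.comap f).map H.subtype, ?_, ?_⟩
  · intro h
    obtain ⟨x, hx⟩ := hf (FreeGroup.of true)
    have h1 : (x : G) ∈ (E.comap f).map H.subtype := by rw [h]; exact Subgroup.mem_top _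
    obtain ⟨y, hy, hyx⟩ := h1
    have h2 : y = x := Subtype.ext hyx
    subst h2
    apply hE2
    rw [← hx]
    exact hy
  · obtain ⟨x, hx⟩ := hf ((FreeGroup.of true) ^ 2)
    obtain ⟨y, hy⟩ := hf ((FreeGroup.of false) ^ 2)
    refine ⟨x, ⟨x, ?_, rfl⟩, y, ⟨y, ?_, rfl⟩, ?_⟩
    · show f x ∈ E
      rw [hx]; exact hE true
    · show f y ∈ E
      rw [hy]; exact hE false
    · intro h
      have h1 : x * y = y * x := Subtype.ext h
      have h2 := congrArg f h1
      rw [map_mul, map_mul, hx, hy] at h2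
      exact fg_of_abelian_aux rfl rfl two_ne_zero two_ne_zero h2

theorem comm_of_isCyclic {K : Subgroup G} (h : IsCyclic K) : ∀ x ∈ K, ∀ y ∈ K, x * y = y * x := by
  intro x hx y hy
  obtain ⟨c, hc⟩ := h.exists_generator
  obtain ⟨p, hp⟩ := hc ⟨x, hx⟩
  obtain ⟨q, hq⟩ := hc ⟨y, hy⟩
  have h1 : (⟨x, hx⟩ : K) * ⟨y, hy⟩ = ⟨y, hy⟩ * ⟨x, hx⟩ := by
    rw [← hp, ← hq]
    exact (Commute.refl c).zpow_zpow p q
  exact congrArg Subtype.val h1

theorem not_mem_of_divisible {N : Subgroup G} [N.Normal] [N.FiniteIndex]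
    (hG : ∀ g : G, ∀ m : ℕ, 1 ≤ m → ∃ h : G, h ^ m = g) (g : G) : g ∈ N := by
  have hfin : Finite (G ⧸ N) := Subgroup.finite_quotient_of_finiteIndex
  obtain ⟨h, rfl⟩ := hG g (Nat.card (G ⧸ N)) Nat.card_pos
  rw [← QuotientGroup.eq_one_iff, QuotientGroup.mk_pow, pow_card_eq_one']

theorem Large.not_monster (hG : Large G) (k : ℕ) : ¬ IsMonster k G := by
  rintro ⟨-, -, h⟩
  rcases h with ⟨-, n, hn, h⟩ | ⟨-, -, h⟩ | ⟨-, p, -, h⟩ | ⟨-, h⟩ | ⟨-, h⟩ |
    ⟨-, S, hSf, hS, -, h⟩
  · obtain ⟨H, -, f, hf⟩ := hG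
    obtain ⟨x, hx⟩ := hf (FreeGroup.of true)
    have h1 : x ^ n = 1 := Subtype.ext (h x)
    have h2 := congrArg (fun y => toZ (f y)) h1
    simp only [map_pow, hx, map_one, toZ_of, ← ofAdd_nsmul] at h2
    have h3 := Multiplicative.ofAdd.injective h2
    simp only [nsmul_eq_mul, mul_one] at h3
    omega
  · obtain ⟨K, hK, x, hx, y, hy, hxy⟩ := hG.exists_proper
    exact hxy (comm_of_isCyclic (h K hK) x hx y hy)
  · obtain ⟨K, hK, x, hx, y, hy, hxy⟩ := hG.exists_proper
    refine hxy (comm_of_isCyclic (h K ?_ hK).1 x hx y hy)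
    rintro rfl
    rw [Subgroup.mem_bot] at hx
    exact hxy (by rw [hx, one_mul, mul_one])
  · obtain ⟨H, hH, f, hf⟩ := hG
    have h1 : ∀ g : G, g ∈ H := fun g =>
      Subgroup.normalCore_le H (not_mem_of_divisible (N := H.normalCore) h g)
    obtain ⟨x, hx⟩ := hf (FreeGroup.of true)
    obtain ⟨y, hy⟩ := h x 2 (by norm_num)
    have h2 : (⟨y, h1 y⟩ : H) ^ 2 = x := Subtype.ext hy
    have h3 := congrArg (fun y => toZ (f y)) h2
    simp only [map_pow, hx, toZ_of] at h3
    have h4 := congrArg Multiplicative.toAdd h3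
    rw [toAdd_pow] at h4
    simp only [toAdd_ofAdd, nsmul_eq_mul] at h4
    push_cast at h4
    omega
  · obtain ⟨H, hH, f, hf⟩ := hG
    have h1 : Finite (ConjClasses H) := finite_of_finiteIndex H
    have htZ : Function.Surjective toZ := by
      intro z
      refine ⟨(FreeGroup.of true) ^ (Multiplicative.toAdd z), ?_⟩
      rw [map_zpow, toZ_of, ← ofAdd_zsmul]
      simp
    have h2 : Finite (ConjClasses (Multiplicative ℤ)) := by
      refine Finite.of_surjective (ConjClasses.map (toZ.comp f)) ?_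
      intro c
      obtain ⟨z, rfl⟩ := ConjClasses.mk_surjective c
      obtain ⟨g, rfl⟩ := (htZ.comp hf) z
      exact ⟨ConjClasses.mk g, rfl⟩
    have h3 : Finite (Multiplicative ℤ) := by
      apply Finite.of_injective (ConjClasses.mk (α := Multiplicative ℤ))
      exact ConjClasses.mk_injective
    exact not_finite (Multiplicative ℤ)
  · obtain ⟨c, hc, h1⟩ := hG.growth hSf hS
    obtain ⟨r, hr⟩ := h c hc
    exact absurd (h1 r) (not_le.2 hr)

end Pool.Agent.Lib.Helper67.BA
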