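import Pool.Agent.Lib.Helper67.BA.Letters

/-!
# Isotropy groups of rays in the directed automorphisms are locally finite
-/

namespace Pool.Agent.Lib.Helper67.BA

open TA

variable {X : Type} {m : ℕ}

variable (X) in
/-- the group of directed automorphisms fixing the ray -/
def BB (m : ℕ) (ξ : ℕ → X) : Subgroup (TA X) where
  carrier := {d | ray d ξ = ξ ∧ Dir m d ξ}
  mul_mem' := by
    rintro a b ⟨ha, ha2⟩ ⟨hb, hb2⟩
    refine ⟨by rw [ray_mul, hb, ha], ?_⟩
    exact Dir.mul (by rw [hb]; exact ha2) hb2
  one_mem' := ⟨ray_one ξ, Dir.one⟩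
  inv_mem' := by
    rintro a ⟨ha, ha2⟩
    have h := ha2.inv
    rw [ha] at h
    refine ⟨?_, h⟩
    conv_lhs => rw [← ha]
    exact ray_inv_ray _ _

theorem BB_fix {ξ : ℕ → X} (b : BB X m ξ) (k : ℕ) : b.1 (pref ξ k) = pref ξ k :=
  ray_eq_iff.1 b.2.1 k

theorem BB_fix' {ξ : ℕ → X} (b : BB X m ξ) (i k : ℕ) :
    sec b.1 (pref ξ i) (pref (shift i ξ) k) = pref (shift i ξ) k := by
  have h1 := BB_fix b (i + k)
  rw [pref_add, TA.append, BB_fix] at h1
  exact List.append_cancel_left h1

theorem finite_Dep [Finite X] [Nonempty X] : Finite (Dep X m) := by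
  apply Finite.of_injective (fun g : Dep X m => rootY m g.1)
  intro g g' h
  apply Subtype.ext
  apply TA.eq_of _ _ m
  intro v hv
  constructor
  · exact congrArg (fun p : Equiv.Perm (List.Vector X m) => (p ⟨v, hv⟩).1) h
  · rw [g.2 v hv, g'.2 v hv]

instance finite_Wr {T Y : Type} [Finite T] [Finite Y] : Finite (Wr T Y) := by
  apply Finite.of_injective (fun a : Wr T Y => (a.f, a.p))
  intro a b h
  simp only [Prod.mk.injEq] at h
  exact Wr.ext h.1 h.2

open Classical in
/-- the data at block `j` -/
noncomputable def dl (ξ : ℕ → X) (j : ℕ) : BB X m ξ →* Wr (Dep X m) (List.Vector X m) where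
  toFun b := ⟨fun y => if h : y.1 = pref (shift (j * m) ξ) m then 1 else
    ⟨sec b.1 (pref ξ (j * m) ++ y.1), b.2.2 j y.1 y.2 h⟩, rootY m (sec b.1 (pref ξ (j * m)))⟩
  map_one' := by
    refine Wr.ext (funext fun y => ?_) ?_
    · show (if h : y.1 = pref (shift (j * m) ξ) m then (1 : Dep X m) else
        ⟨sec (1 : TA X) (pref ξ (j * m) ++ y.1), _⟩) = 1
      split_ifs with h
      · rfl
      · apply Subtype.ext
        exact sec_one _
    · show rootY m (sec (1 : TA X) _) = 1
      rw [sec_one, map_one]
  map_mul' a b := by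
    refine Wr.ext (funext fun y => ?_) ?_
    · have hb : ∀ y : List X, b.1 (pref ξ (j * m) ++ y) =
          pref ξ (j * m) ++ sec b.1 (pref ξ (j * m)) y := by
        intro y
        rw [TA.append, BB_fix]
      rw [Wr.mul_f]
      by_cases h : y.1 = pref (shift (j * m) ξ) m
      · have h2 : (rootY m (sec b.1 (pref ξ (j * m))) y).1 = pref (shift (j * m) ξ) m := by
          rw [rootY_val, h, BB_fix']
        simp only [h, h2, dif_pos, mul_one]
      · have h2 : (rootY m (sec b.1 (pref ξ (j * m))) y).1 ≠ pref (shift (j * m) ξ) m := by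
          rw [rootY_val]
          intro h3
          apply h
          apply TA.inj (sec b.1 (pref ξ (j * m)))
          rw [h3, BB_fix']
        simp only [h, h2, dif_neg, not_false_eq_true]
        apply Subtype.ext
        show sec (a.1 * b.1) (pref ξ (j * m) ++ y.1) =
          sec a.1 (pref ξ (j * m) ++ sec b.1 (pref ξ (j * m)) y.1) *
            sec b.1 (pref ξ (j * m) ++ y.1)
        rw [sec_mul, hb]
    · show rootY m (sec (a.1 * b.1) _) = rootY m (sec a.1 _) * rootY m (sec b.1 _)
      rw [sec_mul, BB_fix, map_mul]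

theorem dl_inj [Nonempty X] (hm : 1 ≤ m) {ξ : ℕ → X} (b : BB X m ξ) (h : ∀ j, dl ξ j b = 1) :
    b = 1 := by
  classical
  have key : ∀ n j, ∀ w : List X, w.length = n * m → sec b.1 (pref ξ (j * m)) w = w := by
    intro n
    induction n with
    | zero =>
      intro j w hw
      rw [zero_mul, List.length_eq_zero_iff] at hw
      rw [hw, TA.map_nil]
    | succ n ih =>
      intro j w hw
      have hw1 : (w.take m).length = m := by
        rw [List.length_take, hw]
        have : (n + 1) * m = n * m + m := by ring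
        omega
      have hw2 : (w.drop m).length = n * m := by
        rw [List.length_drop, hw]
        have : (n + 1) * m = n * m + m := by ring
        omega
      have h1 : sec b.1 (pref ξ (j * m)) (w.take m) = w.take m := by
        have h2 := congrArg (fun a : Wr (Dep X m) (List.Vector X m) => (a.p ⟨_, hw1⟩).1) (h j)
        exact h2
      have h3 : sec (sec b.1 (pref ξ (j * m))) (w.take m) (w.drop m) = w.drop m := by
        by_cases h4 : w.take m = pref (shift (j * m) ξ) m
        · rw [h4, ← sec_append, ← pref_add]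
          have h5 : j * m + m = (j + 1) * m := by ring
          rw [h5]
          exact ih _ _ hw2
        · have h5 := congrArg (fun a : Wr (Dep X m) (List.Vector X m) =>
            (a.f ⟨_, hw1⟩).1) (h j)
          have h6 : sec b.1 (pref ξ (j * m) ++ w.take m) = 1 := by
            have h7 : ((dl ξ j b).f ⟨_, hw1⟩).1 = sec b.1 (pref ξ (j * m) ++ w.take m) := by
              show ((if h : w.take m = pref (shift (j * m) ξ) m then (1 : Dep X m) else
                ⟨sec b.1 (pref ξ (j * m) ++ w.take m), _⟩) : Dep X m).1 = _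
              rw [dif_neg h4]
            rw [← h7]
            exact h5
          rw [← sec_append, h6, one_apply]
      conv_lhs => rw [← List.take_append_drop m w]
      rw [TA.append, h1, h3, List.take_append_drop]
  apply Subtype.ext
  show b.1 = 1
  ext1 w
  obtain ⟨x⟩ := ‹Nonempty X›
  rw [one_apply]
  have h1 := key w.length 0 (w ++ List.replicate (w.length * m - w.length) x) (by
    rw [List.length_append, List.length_replicate]
    have : w.length ≤ w.length * m := Nat.le_mul_of_pos_right _ (by omega)
    omega)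
  rw [zero_mul, pref_zero, sec_nil, TA.append] at h1
  exact List.append_inj_left h1 (TA.length _ _)

theorem finite_of_homs {H K J : Type} [Group H] [hH : Group.FG H] [Group K] [Finite K]
    (f : J → H →* K) (hf : ∀ x, (∀ j, f j x = 1) → x = 1) : Finite H := by
  obtain ⟨S, hS, hSfin⟩ := Group.fg_iff.1 hH
  have h1 : Finite (H →* K) := by
    have := hSfin.to_subtype
    apply Finite.of_injective (fun (φ : H →* K) (s : S) => φ s)
    intro φ ψ h
    apply MonoidHom.eq_of_eqOn_dense hS
    intro s hs
    exact congrFun h ⟨s, hs⟩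
  apply Finite.of_injective (fun (x : H) (φ : H →* K) => φ x)
  intro x y hxy
  have h2 : x * y⁻¹ = 1 := by
    apply hf
    intro j
    have h3 := congrFun hxy (f j)
    simp only at h3
    rw [map_mul, map_inv, h3, mul_inv_cancel]
  exact mul_inv_eq_one.1 h2

/-- locally finite -/
def LF (B : Type) [Group B] : Prop := ∀ H : Subgroup B, Group.FG H → Finite H

theorem LF_BB [Finite X] [Nonempty X] (hm : 1 ≤ m) (ξ : ℕ → X) : LF (BB X m ξ) := by
  intro H hH
  have := finite_Dep (X := X) (m := m)
  apply finite_of_homs (fun j : ℕ => (dl ξ j).comp H.subtype)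
  intro x hx
  have h1 := dl_inj hm x.1 (fun j => hx j)
  exact Subtype.ext h1

theorem LF_prod {A B : Type} [Group A] [Group B] [Finite A] (hB : LF B) : LF (A × B) := by
  intro H hH
  have h1 : Group.FG (H.map (MonoidHom.snd A B)) := by
    have hsurj : Function.Surjective
        ((MonoidHom.snd A B).subgroupMap H) := MonoidHom.subgroupMap_surjective _ _
    exact Group.fg_of_surjective hsurj
  have h2 := hB _ h1
  apply Finite.of_injective (fun x : H => (x.1.1, (⟨x.1.2, ⟨x.1, x.2, rfl⟩⟩ :
    H.map (MonoidHom.snd A B))))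
  intro x y h
  simp only [Prod.mk.injEq] at h
  exact Subtype.ext (Prod.ext h.1 (congrArg Subtype.val h.2))

/-- directed automorphisms fixing their ray have finite order -/
theorem BB_torsion [Finite X] [Nonempty X] (hm : 1 ≤ m) {ξ : ℕ → X} {d : TA X}
    (h1 : ray d ξ = ξ) (h2 : Dir m d ξ) : ∃ k, 1 ≤ k ∧ d ^ k = 1 := by
  let b : BB X m ξ := ⟨d, h1, h2⟩
  have h3 : Finite (Subgroup.zpowers b) := LF_BB hm ξ _ (by
    rw [Group.fg_iff_subgroup_fg, Subgroup.zpowers_eq_closure]
    exact ⟨{b}, by simp⟩)
  have h4 : IsOfFinOrder (⟨b, Subgroup.mem_zpowers b⟩ : Subgroup.zpowers b) :=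
    isOfFinOrder_of_finite _
  obtain ⟨k, hk, hk2⟩ := isOfFinOrder_iff_pow_eq_one.1 h4
  refine ⟨k, hk, ?_⟩
  have h5 := congrArg (fun x : Subgroup.zpowers b => (x.1.1 : TA X)) hk2
  simpa using h5

end Pool.Agent.Lib.Helper67.BA
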