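import Pool.Agent.Lib.Helper67.BA.Rays

/-!
# Bounded automorphisms: sections at a deep level are finitary or directed
-/

namespace Pool.Agent.Lib.Helper67.BA

open TA

variable {X : Type}

/-- Bounded activity, and a uniform bound on the depths of the finitary sections. -/
def Bdd (g : TA X) : Prop :=
  (∃ C : ℕ, ∀ n, {v : List X | v.length = n ∧ sec g v ≠ 1}.ncard ≤ C) ∧
  ∃ D : ℕ, ∀ v : List X, (∃ k, sec g v ∈ Dep X k) → sec g v ∈ Dep X D

/-- nonfinitary section -/
def NF (g : TA X) (v : List X) : Prop := ∀ k, sec g v ∉ Dep X k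

theorem sec_mem_Dep {k : ℕ} {h : TA X} (hh : h ∈ Dep X k) (w : List X) : sec h w ∈ Dep X k := by
  intro u hu
  rw [← sec_append]
  exact Dep_sec hh (by rw [List.length_append]; omega)

theorem NF.of_append {g : TA X} {v w : List X} (h : NF g (v ++ w)) : NF g v := by
  intro k hk
  apply h k
  rw [sec_append]
  exact sec_mem_Dep hk w

theorem finite_words [Finite X] (n : ℕ) : {v : List X | v.length = n}.Finite :=
  List.finite_length_eq X n

theorem NF.ext [Finite X] {g : TA X} {v : List X} (h : NF g v) (k : ℕ) :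
    ∃ w : List X, w.length = k ∧ NF g (v ++ w) := by
  classical
  by_contra hcon
  push Not at hcon
  have h1 : ∀ w : List X, ∃ K, w.length = k → sec g (v ++ w) ∈ Dep X K := by
    intro w
    by_cases hw : w.length = k
    · have h2 := hcon w hw
      unfold NF at h2
      push Not at h2
      obtain ⟨K, hK⟩ := h2
      exact ⟨K, fun _ => hK⟩
    · exact ⟨0, fun h => absurd h hw⟩
  choose K hK using h1
  obtain ⟨M, hM⟩ := ((finite_words k).image K).bddAbove
  apply h (k + M)
  intro u hu
  have h2 : (u.take k).length = k := by rw [List.length_take]; omega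
  rw [← List.take_append_drop k u, sec_append, ← sec_append g v]
  apply Dep_sec (hK _ h2)
  have h3 : K (u.take k) ≤ M := hM ⟨_, h2, rfl⟩
  rw [List.length_drop]
  omega

/-- Below a deep level, the nonfinitary sections follow a single ray. -/
theorem norm_aux [Finite X] {g : TA X} (hg : Bdd g) : ∃ n₀ : ℕ, ∀ v : List X, n₀ ≤ v.length →
    NF g v → ∃ ξ : ℕ → X, ∀ w : List X, NF g (v ++ w) ↔ w = pref ξ w.length := by
  classical
  obtain ⟨⟨C, hC⟩, -⟩ := hg
  set A : ℕ → Set (List X) := fun n => {v | v.length = n ∧ NF g v} with hA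
  have hfin : ∀ n, (A n).Finite := fun n => (finite_words n).subset fun v hv => hv.1
  have hle : ∀ n, (A n).ncard ≤ C := by
    intro n
    refine (Set.ncard_le_ncard ?_ ((finite_words n).subset fun v hv => hv.1)).trans (hC n)
    rintro v ⟨h1, h2⟩
    refine ⟨h1, fun h3 => h2 0 ?_⟩
    rw [h3]
    exact one_mem _
  have hsub : ∀ n k, A n ⊆ (List.take n) '' (A (n + k)) := by
    rintro n k v ⟨h1, h2⟩
    obtain ⟨w, hw, hw2⟩ := h2.ext k
    refine ⟨v ++ w, ⟨by rw [List.length_append]; omega, hw2⟩, ?_⟩
    rw [← h1, List.take_left]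
  have hmono : ∀ n k, (A n).ncard ≤ (List.take n '' (A (n + k))).ncard := fun n k =>
    Set.ncard_le_ncard (hsub n k) ((hfin _).image _)
  have himg : ∀ n k, (List.take n '' (A (n + k))).ncard ≤ (A (n + k)).ncard := fun n k =>
    Set.ncard_image_le (hfin _)
  obtain ⟨n₀, hn₀⟩ : ∃ n₀, ∀ n, (A n).ncard ≤ (A n₀).ncard := by
    have h1 : (Set.range fun n => (A n).ncard).Nonempty := ⟨_, 0, rfl⟩
    have h2 : BddAbove (Set.range fun n => (A n).ncard) := ⟨C, by rintro _ ⟨n, rfl⟩; exact hle n⟩
    obtain ⟨n₀, hn₀⟩ := Nat.sSup_mem h1 h2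
    refine ⟨n₀, fun n => ?_⟩
    have h3 : (A n).ncard ≤ sSup (Set.range fun n => (A n).ncard) := le_csSup h2 ⟨n, rfl⟩
    have h4 : (A n₀).ncard = sSup (Set.range fun n => (A n).ncard) := hn₀
    omega
  -- uniqueness
  have huniq : ∀ n, n₀ ≤ n → ∀ v w w' : List X, v.length = n → w.length = w'.length →
      NF g (v ++ w) → NF g (v ++ w') → w = w' := by
    intro n hn v w w' hv hw h1 h2
    have h3 : (A n₀).ncard ≤ (A n).ncard := by
      have h4 := (hmono n₀ (n - n₀)).trans (himg n₀ (n - n₀))
      rwa [Nat.add_sub_cancel' hn] at h4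
    have h5 : ((List.take n) '' (A (n + w.length))).ncard = (A (n + w.length)).ncard := by
      apply le_antisymm (himg _ _)
      exact ((hn₀ _).trans h3).trans (hmono _ _)
    have h6 := Set.injOn_of_ncard_image_eq h5 (hfin _)
    have h7 : v ++ w = v ++ w' := by
      apply h6
      · exact ⟨by rw [List.length_append, hv], h1⟩
      · exact ⟨by rw [List.length_append, hv, hw], h2⟩
      · show List.take n (v ++ w) = List.take n (v ++ w')
        rw [← hv, List.take_left, List.take_left]
    exact List.append_cancel_left h7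
  refine ⟨n₀, fun v hm1 hnf => ?_⟩
  choose W hW1 hW2 using fun k => hnf.ext k
  let ξ : ℕ → X := fun i => (W (i + 1))[i]'(by rw [hW1]; omega)
  have hξ : ∀ k, pref ξ k = W k := by
    intro k
    apply List.ext_getElem
    · rw [length_pref, hW1]
    · intro i h1 h2
      rw [length_pref] at h1
      rw [pref_get _ _ _ h1]
      have h3 : W (i + 1) = (W k).take (i + 1) := by
        apply huniq _ hm1 v _ _ rfl _ (hW2 _)
        · apply NF.of_append (w := (W k).drop (i + 1))
          rw [List.append_assoc, List.take_append_drop]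
          exact hW2 k
        · rw [List.length_take, hW1, hW1]
          omega
      have h4 : (W (i + 1))[i]'(by rw [hW1]; omega) =
          ((W k).take (i + 1))[i]'(by rw [List.length_take, hW1]; omega) := by
        congr 1
      show (W (i + 1))[i]'(by rw [hW1]; omega) = (W k)[i]
      rw [h4, List.getElem_take]
  refine ⟨ξ, fun w => ⟨fun h => ?_, fun h => ?_⟩⟩
  · rw [hξ]
    exact huniq _ hm1 v _ _ rfl (hW1 _).symm h (hW2 _)
  · rw [h, hξ]
    exact hW2 _

/-- **Sections at deep levels.** -/
theorem norm [Finite X] {g : TA X} (hg : Bdd g) : ∃ m₀ : ℕ, ∀ m, m₀ ≤ m → ∀ v : List X,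
    v.length = m → sec g v ∈ Dep X m ∨ ∃ ξ, Dir m (sec g v) ξ := by
  obtain ⟨n₀, hn₀⟩ := norm_aux hg
  obtain ⟨-, D, hD⟩ := hg
  refine ⟨max n₀ D, fun m hm v hv => ?_⟩
  have hm1 : n₀ ≤ m := (le_max_left _ _).trans hm
  have hm2 : D ≤ m := (le_max_right _ _).trans hm
  by_cases hnf : NF g v
  swap
  · left
    unfold NF at hnf
    push Not at hnf
    exact Dep_mono hm2 (hD v hnf)
  right
  obtain ⟨ξ, hξ⟩ := hn₀ v (by omega) hnf
  refine ⟨ξ, fun j z hz hz2 => ?_⟩
  rw [← sec_append]
  by_cases hnf2 : NF g (v ++ (pref ξ (j * m) ++ z))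
  · exfalso
    apply hz2
    have h1 : pref ξ (j * m) ++ z = pref ξ (j * m + m) := by
      rw [(hξ _).1 hnf2]
      simp [hz]
    rw [pref_add] at h1
    exact List.append_cancel_left h1
  · unfold NF at hnf2
    push Not at hnf2
    exact Dep_mono hm2 (hD _ hnf2)

theorem Bdd.one : Bdd (1 : TA X) := by
  refine ⟨⟨0, fun n => ?_⟩, 0, fun v _ => ?_⟩
  · simp
  · rw [sec_one]
    exact one_mem _

theorem Bdd.inv [Finite X] {g : TA X} (hg : Bdd g) : Bdd g⁻¹ := by
  obtain ⟨⟨C, hC⟩, D, hD⟩ := hg
  refine ⟨⟨C, fun n => ?_⟩, D, fun v hv => ?_⟩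
  · refine le_trans ?_ (hC n)
    refine Set.ncard_le_ncard_of_injOn (fun v => g⁻¹ v) ?_ ?_
      ((finite_words n).subset fun v hv => hv.1)
    · rintro v ⟨h1, h2⟩
      refine ⟨by rw [TA.length, h1], fun h3 => h2 ?_⟩
      rw [sec_inv, h3, inv_one]
    · intro v _ w _ h
      exact TA.inj _ h
  · rw [sec_inv]
    apply inv_mem
    apply hD
    obtain ⟨k, hk⟩ := hv
    rw [sec_inv] at hk
    exact ⟨k, inv_mem_iff.1 hk⟩

theorem not_NF {g : TA X} {v : List X} (h : ¬ NF g v) : ∃ k, sec g v ∈ Dep X k := by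
  unfold NF at h
  push Not at h
  exact h

theorem Bdd.mul [Finite X] {g h : TA X} (hg : Bdd g) (hh : Bdd h) : Bdd (g * h) := by
  classical
  obtain ⟨n₁, hn₁⟩ := norm_aux hg
  obtain ⟨n₂, hn₂⟩ := norm_aux hh
  obtain ⟨⟨C₁, hC₁⟩, D₁, hD₁⟩ := hg
  obtain ⟨⟨C₂, hC₂⟩, D₂, hD₂⟩ := hh
  constructor
  · refine ⟨C₁ + C₂, fun n => ?_⟩
    have h1 : {v : List X | v.length = n ∧ sec (g * h) v ≠ 1} ⊆
        {v : List X | v.length = n ∧ sec g (h v) ≠ 1} ∪
        {v : List X | v.length = n ∧ sec h v ≠ 1} := by
      rintro v ⟨h1, h2⟩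
      by_cases h3 : sec h v = 1
      · left
        refine ⟨h1, fun h4 => h2 ?_⟩
        rw [sec_mul, h3, h4, one_mul]
      · right
        exact ⟨h1, h3⟩
    have h2 : {v : List X | v.length = n ∧ sec g (h v) ≠ 1}.ncard ≤ C₁ := by
      refine le_trans ?_ (hC₁ n)
      refine Set.ncard_le_ncard_of_injOn (fun v => h v) ?_ ?_
        ((finite_words n).subset fun v hv => hv.1)
      · rintro v ⟨h1, h2⟩
        exact ⟨by rw [TA.length, h1], h2⟩
      · intro v _ w _ h
        exact TA.inj _ h
    calc _ ≤ _ := Set.ncard_le_ncard h1 (((finite_words n).subset fun v hv => hv.1).union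
          ((finite_words n).subset fun v hv => hv.1))
      _ ≤ _ := Set.ncard_union_le _ _
      _ ≤ _ := add_le_add h2 (hC₂ n)
  · -- depths of the finitely many sections near the root
    let N := max n₁ n₂
    have hk : ∀ v : List X, ∃ k, ¬ NF (g * h) v → sec (g * h) v ∈ Dep X k := by
      intro v
      by_cases hv : NF (g * h) v
      · exact ⟨0, fun h => absurd hv h⟩
      · obtain ⟨k, hk⟩ := not_NF hv
        exact ⟨k, fun _ => hk⟩
    choose K hK using hk
    have hfin : {v : List X | v.length ≤ N}.Finite := List.finite_length_le X N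
    obtain ⟨M, hM⟩ := (hfin.image K).bddAbove
    refine ⟨max M (max D₁ D₂), fun v hv => ?_⟩
    have hv' : ¬ NF (g * h) v := fun h => by
      obtain ⟨k, hk⟩ := hv
      exact h k hk
    by_cases hlen : v.length ≤ N
    · exact Dep_mono ((hM ⟨v, hlen, rfl⟩).trans (le_max_left _ _)) (hK v hv')
    push Not at hlen
    have h0 : (v.take N).length = N := by rw [List.length_take]; omega
    have hvv : v = v.take N ++ v.drop N := (List.take_append_drop N v).symm
    by_cases hv0 : NF (g * h) (v.take N)
    swap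
    · rw [hvv, sec_append]
      apply sec_mem_Dep
      exact Dep_mono ((hM ⟨_, h0.le, rfl⟩).trans (le_max_left _ _)) (hK _ hv0)
    -- both factors are finitary
    suffices hs : ¬ NF h v ∧ ¬ NF g (h v) by
      rw [sec_mul]
      exact Dep_mono (le_max_right _ _) (mul_mem
        (Dep_mono (le_max_left _ _) (hD₁ _ (not_NF hs.2)))
        (Dep_mono (le_max_right _ _) (hD₂ _ (not_NF hs.1))))
    obtain ⟨k, hk⟩ := hv
    by_cases hhv : NF h v
    · exfalso
      have hghv : NF g (h v) := by
        intro l hl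
        apply hhv (max l k)
        have h1 : sec h v = (sec g (h v))⁻¹ * sec (g * h) v := by
          rw [sec_mul, inv_mul_cancel_left]
        rw [h1]
        exact mul_mem (inv_mem (Dep_mono (le_max_left _ _) hl)) (Dep_mono (le_max_right _ _) hk)
      set v₀ := v.take N with hv₀
      set w := v.drop N with hw
      have hn1 : n₁ ≤ (h v₀).length := by rw [TA.length, h0]; exact le_max_left _ _
      have hn2 : n₂ ≤ v₀.length := by rw [h0]; exact le_max_right _ _
      rw [hvv] at hhv hghv hk
      rw [TA.append] at hghv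
      obtain ⟨ξ, hξ⟩ := hn₂ v₀ hn2 hhv.of_append
      obtain ⟨η, hη⟩ := hn₁ (h v₀) hn1 hghv.of_append
      apply hv0 (w.length + max k (max D₁ D₂))
      intro u hu
      have hu1 : (u.take w.length).length = w.length := by rw [List.length_take]; omega
      have hu2 : (u.drop w.length).length = max k (max D₁ D₂) := by
        rw [List.length_drop]; omega
      rw [← List.take_append_drop w.length u, sec_append, ← sec_append (g * h)]
      by_cases hcase : u.take w.length = w
      · rw [hcase]
        exact Dep_sec hk (by rw [hu2]; exact le_max_left _ _)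
      · have h1 : ¬ NF h (v₀ ++ u.take w.length) := by
          rw [hξ, hu1, ← (hξ w).1 hhv]
          exact hcase
        have h2 : ¬ NF g (h (v₀ ++ u.take w.length)) := by
          rw [TA.append, hη, TA.length, hu1]
          have h3 := (hη _).1 hghv
          rw [TA.length] at h3
          rw [← h3]
          exact fun h4 => hcase (TA.inj _ h4)
        rw [sec_mul g h, sec_mul, Dep_sec (hD₂ _ (not_NF h1)), mul_one,
          Dep_sec (hD₁ _ (not_NF h2))]
        · rw [TA.length, hu2]
          exact (le_max_left _ _).trans (le_max_right _ _)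
        · rw [hu2]
          exact (le_max_right _ _).trans (le_max_right _ _)
    · refine ⟨hhv, fun hghv => ?_⟩
      obtain ⟨l, hl⟩ := not_NF hhv
      apply hghv (max k l)
      have h1 : sec g (h v) = sec (g * h) v * (sec h v)⁻¹ := by
        rw [sec_mul, mul_inv_cancel_right]
      rw [h1]
      exact mul_mem (Dep_mono (le_max_left _ _) hk) (inv_mem (Dep_mono (le_max_right _ _) hl))

variable (X) in
/-- the group of bounded automorphisms with bounded finitary depth -/
def BG [Finite X] : Subgroup (TA X) where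
  carrier := {g | Bdd g}
  mul_mem' := fun ha hb => ha.mul hb
  one_mem' := Bdd.one
  inv_mem' := fun ha => ha.inv

end Pool.Agent.Lib.Helper67.BA
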