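import Mathlib

/-!
# An isoperimetric inequality in the free group of rank two
-/

namespace Pool.Agent.Lib.Helper67.BA

/-- letters as elements -/
def gen (x : Bool × Bool) : FreeGroup Bool := FreeGroup.mk [x]

/-- two letters which do not cancel -/
def chooseL (i : Bool) (u : FreeGroup Bool) : Bool × Bool :=
  match u.toWord with
  | [] => (i, true)
  | hd :: _ => bif i then hd else (!hd.1, true)

/-- the two long neighbours -/
def ff (i : Bool) (u : FreeGroup Bool) : FreeGroup Bool := gen (chooseL i u) * u

theorem toWord_ff (i : Bool) (u : FreeGroup Bool) :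
    (ff i u).toWord = chooseL i u :: u.toWord := by
  have h1 : ff i u = FreeGroup.mk (chooseL i u :: u.toWord) := by
    rw [ff, gen]
    have h2 : FreeGroup.mk [chooseL i u] * u = FreeGroup.mk [chooseL i u] *
        FreeGroup.mk u.toWord := by rw [FreeGroup.mk_toWord]
    rw [h2, FreeGroup.mul_mk]
    rfl
  rw [h1, FreeGroup.toWord_mk, FreeGroup.reduce.cons, FreeGroup.reduce_toWord]
  unfold chooseL
  rcases hL : u.toWord with _ | ⟨⟨a, b⟩, tl⟩
  · rfl
  · cases i
    · simp
    · simp

theorem ff_inj {i j : Bool} {u v : FreeGroup Bool} (h : ff i u = ff j v) : i = j ∧ u = v := by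
  have h1 := congrArg FreeGroup.toWord h
  rw [toWord_ff, toWord_ff, List.cons.injEq] at h1
  have h2 : u = v := FreeGroup.toWord_injective h1.2
  subst h2
  refine ⟨?_, rfl⟩
  have h3 := h1.1
  unfold chooseL at h3
  rcases hL : u.toWord with _ | ⟨⟨a, b⟩, tl⟩
  · rw [hL] at h3
    simpa using h3
  · rw [hL] at h3
    cases i <;> cases j <;> simp_all

open Classical in
theorem isoper (U : Finset (FreeGroup Bool)) :
    U.card ≤ (((Finset.univ : Finset Bool) ×ˢ U).filter (fun p => ff p.1 p.2 ∉ U)).card := by
  have h1 : (((Finset.univ : Finset Bool) ×ˢ U).filter (fun p => ff p.1 p.2 ∈ U)).card ≤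
      U.card := by
    apply Finset.card_le_card_of_injOn (fun p => ff p.1 p.2)
    · intro p hp
      simp only [Finset.coe_filter, Set.mem_ofPred_eq] at hp
      exact hp.2
    · intro p _ q _ h
      have h2 := ff_inj h
      exact Prod.ext h2.1 h2.2
  have h2 := Finset.card_filter_add_card_filter_not (s := (Finset.univ : Finset Bool) ×ˢ U)
    (fun p => ff p.1 p.2 ∈ U)
  have h3 : ((Finset.univ : Finset Bool) ×ˢ U).card = 2 * U.card := by
    rw [Finset.card_product]
    simp
  omega

instance : Infinite (FreeGroup Bool) := by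
  apply Infinite.of_injective (fun n : ℕ => (FreeGroup.of true) ^ n)
  intro a b h
  simp only at h
  have h1 := congrArg (FreeGroup.lift (fun _ : Bool => Multiplicative.ofAdd (1 : ℤ))) h
  simp only [map_pow, FreeGroup.lift_apply_of, ← ofAdd_nsmul] at h1
  have h2 := Multiplicative.ofAdd.injective h1
  simpa using h2

end Pool.Agent.Lib.Helper67.BA
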