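import Pool.Agent.Lib.Helper67.BA.Norm
import Pool.Agent.Lib.Helper67.BA.Isotropy
import Pool.Agent.Lib.Helper67.BA.FreeLemmas
import Pool.Agent.Lib.Helper67.BA.Iso

/-!
# Groups of bounded automorphisms contain no free group of rank two
-/

namespace Pool.Agent.Lib.Helper67.BA

open TA

variable {X : Type}

theorem pref_le {ξ η : ℕ → X} {n N : ℕ} (hn : n ≤ N) (h : pref ξ N = pref η N) :
    pref ξ n = pref η n := by
  obtain ⟨k, rfl⟩ := Nat.exists_eq_add_of_le hn
  rw [pref_add, pref_add] at h
  exact List.append_inj_left h (by simp)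

theorem ray_split {ξ η : ℕ → X} {n : ℕ} (h1 : pref ξ n = pref η n) (h2 : shift n ξ = shift n η) :
    ξ = η := by
  apply ray_ext
  intro k
  apply pref_le (Nat.le_add_left k n)
  rw [pref_add, pref_add, h1, h2]

theorem Dir.leave {m : ℕ} (hm : 1 ≤ m) {d : TA X} {ξ η : ℕ → X} (hd : Dir m d ξ)
    (h : η ≠ ξ) : ∃ n, TA.sec d (pref η n) = 1 := by
  classical
  have h1 : ∃ j, pref ξ (j * m) ≠ pref η (j * m) := by
    by_contra hcon
    push Not at hcon
    apply h
    apply ray_ext
    intro n
    exact (pref_le (Nat.le_mul_of_pos_right n (by omega)) (hcon n)).symm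
  have h2 := Nat.find_spec h1
  have h3 : ∀ i < Nat.find h1, pref ξ (i * m) = pref η (i * m) := fun i hi => by
    have := Nat.find_min h1 hi
    push Not at this
    exact this
  rcases hj : Nat.find h1 with _ | i
  · rw [hj] at h2
    simp at h2
  · rw [hj] at h2 h3
    have h4 := h3 i (Nat.lt_succ_self i)
    have h5 : (i + 1) * m = i * m + m := by ring
    rw [h5, pref_add, pref_add, h4] at h2
    have h6 : pref (shift (i * m) η) m ≠ pref (shift (i * m) ξ) m := by
      intro h7
      exact h2 (by rw [h7])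
    have h7 := hd i _ (length_pref _ _) h6
    refine ⟨i * m + m + m, ?_⟩
    rw [pref_add, sec_append, pref_add, ← h4]
    exact h7 _ (length_pref _ _)

theorem sing [Finite X] {g : TA X} (hg : Bdd g) : ∃ m, 1 ≤ m ∧ ∀ v : List X, v.length = m →
    (∀ η, pref η m = v → ∃ n, sec g (pref η n) = 1) ∨
    ∃ ξ, Dir m (sec g v) ξ ∧ ∀ η, pref η m = v → shift m η ≠ ξ → ∃ n, sec g (pref η n) = 1 := by
  obtain ⟨m₀, h⟩ := norm hg
  refine ⟨max m₀ 1, le_max_right _ _, fun v hv => ?_⟩
  rcases h _ (le_max_left _ _) v hv with h1 | ⟨ξ, h1⟩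
  · left
    intro η hη
    refine ⟨max m₀ 1 + max m₀ 1, ?_⟩
    rw [pref_add, sec_append, hη]
    exact h1 _ (length_pref _ _)
  · right
    refine ⟨ξ, h1, fun η hη hne => ?_⟩
    obtain ⟨n, hn⟩ := h1.leave (le_max_right _ _) hne
    refine ⟨max m₀ 1 + n, ?_⟩
    rw [pref_add, sec_append, hη, hn]

theorem sing_finite [Finite X] {g : TA X} (hg : Bdd g) :
    {η : ℕ → X | ∀ n, sec g (pref η n) ≠ 1}.Finite := by
  obtain ⟨m, -, h⟩ := sing hg
  apply Set.Finite.of_finite_image (f := fun η => pref η m)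
  · apply (finite_words (X := X) m).subset
    rintro _ ⟨η, _, rfl⟩
    exact length_pref _ _
  · intro η hη η' hη' heq
    simp only at heq
    rcases h (pref η m) (length_pref _ _) with h1 | ⟨ξ, -, h1⟩
    · obtain ⟨n, hn⟩ := h1 η rfl
      exact absurd hn (hη n)
    · have h2 : shift m η = ξ := by
        by_contra hne
        obtain ⟨n, hn⟩ := h1 η rfl hne
        exact hη n hn
      have h3 : shift m η' = ξ := by
        by_contra hne
        obtain ⟨n, hn⟩ := h1 η' heq.symm hne
        exact hη' n hn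
      exact ray_split heq (h2.trans h3.symm)

/-- germs of stabilizers are torsion -/
theorem torsion_germ [Finite X] [Nonempty X] {g : TA X} (hg : Bdd g) {ζ : ℕ → X}
    (h : ray g ζ = ζ) : ∃ k, 1 ≤ k ∧ ∃ n, sec (g ^ k) (pref ζ n) = 1 := by
  obtain ⟨m, hm, h1⟩ := sing hg
  have hfix : ∀ n, g (pref ζ n) = pref ζ n := ray_eq_iff.1 h
  rcases h1 (pref ζ m) (length_pref _ _) with h2 | ⟨ξ, hξ, h2⟩
  · obtain ⟨n, hn⟩ := h2 ζ rfl
    exact ⟨1, le_rfl, n, by rw [pow_one]; exact hn⟩
  · by_cases hne : shift m ζ = ξ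
    · subst hne
      have h3 : ray (sec g (pref ζ m)) (shift m ζ) = shift m ζ := by
        rw [← shift_ray, h]
      obtain ⟨k, hk, hk2⟩ := BB_torsion hm h3 hξ
      exact ⟨k, hk, m, by rw [(sec_pow_of_fixed (hfix m) k).2, hk2]⟩
    · obtain ⟨n, hn⟩ := h2 ζ rfl hne
      exact ⟨1, le_rfl, n, by rw [pow_one]; exact hn⟩

theorem finite_tail [Finite X] (n : ℕ) (z : ℕ → X) : {η : ℕ → X | shift n η = shift n z}.Finite := by
  apply Set.Finite.of_finite_image (f := fun η => pref η n)
  · apply (finite_words (X := X) n).subset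
    rintro _ ⟨η, _, rfl⟩
    exact length_pref _ _
  · intro η hη η' hη' heq
    exact ray_split heq (hη.trans hη'.symm)

theorem shift_mono {ξ η : ℕ → X} {n N : ℕ} (hn : n ≤ N) (h : shift n ξ = shift n η) :
    shift N ξ = shift N η := by
  obtain ⟨k, rfl⟩ := Nat.exists_eq_add_of_le hn
  rw [← shift_shift k n, ← shift_shift k n, h]

/-- **Every ray has a nontrivial stabilizer.** -/
theorem exists_stab [Finite X] (ψ : FreeGroup Bool →* TA X) (hb : ∀ u, Bdd (ψ u))
    (ζ : ℕ → X) : ∃ u, u ≠ 1 ∧ ray (ψ u) ζ = ζ := by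
  classical
  by_contra hcon
  push Not at hcon
  have hinj : Function.Injective fun u => ray (ψ u) ζ := by
    intro u v huv
    simp only at huv
    by_contra hne
    apply hcon (v⁻¹ * u) (by rw [Ne, inv_mul_eq_one]; exact fun h => hne h.symm)
    rw [map_mul, map_inv, ray_mul, huv, ray_inv_ray]
  -- the finite set of rays
  let Zs : Set (ℕ → X) := {ζ} ∪ ⋃ x : Bool × Bool,
    (fun η => ray (ψ (gen x)) η) '' {η | ∀ n, sec (ψ (gen x)) (pref η n) ≠ 1}
  have hZ : Zs.Finite :=
    (Set.finite_singleton _).union (Set.finite_iUnion fun x => (sing_finite (hb _)).image _)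
  have hζ : ζ ∈ Zs := Or.inl rfl
  let U : ℕ → Set (FreeGroup Bool) := fun n =>
    {u | ∃ z ∈ Zs, shift n (ray (ψ u) ζ) = shift n z}
  have hUfin : ∀ n, (U n).Finite := by
    intro n
    have h1 : (⋃ z ∈ Zs, {η : ℕ → X | shift n η = shift n z}).Finite :=
      hZ.biUnion fun z _ => finite_tail n z
    have h2 : U n = (fun u => ray (ψ u) ζ) ⁻¹' (⋃ z ∈ Zs, {η : ℕ → X | shift n η = shift n z}) := by
      ext u
      simp [U]
    rw [h2]
    exact h1.preimage hinj.injOn
  have hUmono : ∀ n N, n ≤ N → U n ⊆ U N := by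
    rintro n N hn u ⟨z, hz, h⟩
    exact ⟨z, hz, shift_mono hn h⟩
  have hexh : ∀ L : List (Bool × Bool), ∃ n, FreeGroup.mk L ∈ U n := by
    intro L
    induction L with
    | nil =>
      refine ⟨0, ζ, hζ, ?_⟩
      rw [← FreeGroup.one_eq_mk, map_one, ray_one]
    | cons x L ih =>
      obtain ⟨n, z, hz, hn⟩ := ih
      have h1 : FreeGroup.mk (x :: L) = gen x * FreeGroup.mk L := by
        rw [gen, FreeGroup.mul_mk]
        rfl
      rw [h1]
      by_cases hs : ∀ k, sec (ψ (gen x)) (pref (ray (ψ (FreeGroup.mk L)) ζ) k) ≠ 1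
      · refine ⟨0, ray (ψ (gen x)) (ray (ψ (FreeGroup.mk L)) ζ), ?_, ?_⟩
        · right
          exact Set.mem_iUnion.2 ⟨x, _, hs, rfl⟩
        · rw [map_mul, ray_mul]
      · push Not at hs
        obtain ⟨k, hk⟩ := hs
        refine ⟨k + n, z, hz, ?_⟩
        rw [map_mul, ray_mul, ← shift_shift n k, shift_ray, hk, ray_one, shift_shift]
        exact shift_mono (Nat.le_add_left n k) hn
  have hexh' : ∀ u, ∃ n, u ∈ U n := by
    intro u
    obtain ⟨n, hn⟩ := hexh u.toWord
    rw [FreeGroup.mk_toWord] at hn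
    exact ⟨n, hn⟩
  -- active words
  choose C hC using fun x : Bool × Bool => (hb (gen x)).1
  have hWfin : ∀ n (x : Bool × Bool),
      {v : List X | v.length = n ∧ sec (ψ (gen x)) v ≠ 1}.Finite := fun n x =>
    (finite_words n).subset fun v hv => hv.1
  let W : ℕ → Finset (List X) := fun n =>
    Finset.univ.biUnion fun x : Bool × Bool => (hWfin n x).toFinset
  have hW : ∀ n, (W n).card ≤ ∑ x, C x := by
    intro n
    refine Finset.card_biUnion_le.trans (Finset.sum_le_sum fun x _ => ?_)
    rw [← Set.ncard_eq_toFinset_card _ (hWfin n x)]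
    exact hC x n
  have hbound : ∀ n, (hUfin n).toFinset.card ≤ 2 * (hZ.toFinset.card * ∑ x, C x) := by
    intro n
    refine (isoper (hUfin n).toFinset).trans ?_
    have hchoose : ∀ u, ∃ z, u ∈ U n → z ∈ Zs ∧ shift n (ray (ψ u) ζ) = shift n z := by
      intro u
      by_cases hu : u ∈ U n
      · obtain ⟨z, hz, h⟩ := hu
        exact ⟨z, fun _ => ⟨hz, h⟩⟩
      · exact ⟨ζ, fun h => absurd h hu⟩
    choose zz hzz using hchoose
    have h1 : ((((Finset.univ : Finset Bool) ×ˢ (hUfin n).toFinset).filter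
        (fun p => ff p.1 p.2 ∉ (hUfin n).toFinset)).card ≤
        ((Finset.univ : Finset Bool) ×ˢ (hZ.toFinset ×ˢ W n)).card) := by
      apply Finset.card_le_card_of_injOn
        (fun p => (p.1, zz p.2, pref (ray (ψ p.2) ζ) n))
      · rintro ⟨i, u⟩ hp
        simp only [Finset.coe_filter, Finset.mem_product, Finset.mem_univ, true_and,
          Set.Finite.mem_toFinset, Set.mem_ofPred_eq] at hp
        obtain ⟨hu, hf⟩ := hp
        have h2 := hzz u hu
        simp only [Finset.coe_product, Set.mem_prod, Finset.mem_coe, Finset.mem_univ, true_and,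
          Set.Finite.mem_toFinset]
        refine ⟨h2.1, ?_⟩
        refine Finset.mem_biUnion.2 ⟨chooseL i u, Finset.mem_univ _, ?_⟩
        rw [Set.Finite.mem_toFinset]
        refine ⟨length_pref _ _, fun h3 => hf ?_⟩
        refine ⟨zz u, h2.1, ?_⟩
        rw [ff, map_mul, ray_mul, shift_ray, h3, ray_one]
        exact h2.2
      · rintro ⟨i, u⟩ hp ⟨j, v⟩ hq h
        simp only [Finset.coe_filter, Finset.mem_product, Finset.mem_univ, true_and,
          Set.Finite.mem_toFinset, Set.mem_ofPred_eq] at hp hq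
        simp only [Prod.mk.injEq] at h
        obtain ⟨h2, h3, h4⟩ := h
        have h5 : ray (ψ u) ζ = ray (ψ v) ζ := by
          apply ray_split h4
          rw [(hzz u hp.1).2, (hzz v hq.1).2, h3]
        rw [h2, hinj h5]
    refine h1.trans ?_
    rw [Finset.card_product, Finset.card_product]
    have h2 : (Finset.univ : Finset Bool).card = 2 := rfl
    rw [h2]
    exact Nat.mul_le_mul_left _ (Nat.mul_le_mul_left _ (hW n))
  obtain ⟨T, hT⟩ := Infinite.exists_subset_card_eq (FreeGroup Bool)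
    (2 * (hZ.toFinset.card * ∑ x, C x) + 1)
  choose nn hnn using hexh'
  have h1 : T ⊆ (hUfin (T.sup nn)).toFinset := by
    intro u hu
    rw [Set.Finite.mem_toFinset]
    exact hUmono _ _ (Finset.le_sup hu) (hnn u)
  have h2 := (Finset.card_le_card h1).trans (hbound _)
  omega

/-- rays from extendable words -/
theorem exists_ray (Q : List X → Prop) (h0 : Q []) (hs : ∀ v, Q v → ∃ x, Q (v ++ [x])) :
    ∃ ζ : ℕ → X, ∀ n, Q (pref ζ n) := by
  classical
  choose f hf using hs
  let seq : ℕ → {v : List X // Q v} := fun n =>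
    Nat.rec ⟨[], h0⟩ (fun _ v => ⟨v.1 ++ [f v.1 v.2], hf v.1 v.2⟩) n
  let ζ : ℕ → X := fun n => f (seq n).1 (seq n).2
  refine ⟨ζ, fun n => ?_⟩
  have h1 : pref ζ n = (seq n).1 := by
    induction n with
    | zero => rfl
    | succ n ih =>
      rw [pref, List.range_succ, List.map_append]
      show pref ζ n ++ [ζ n] = (seq n).1 ++ [f (seq n).1 (seq n).2]
      rw [ih]
  rw [h1]
  exact (seq n).2

/-- **No free subgroup of rank two.** -/
theorem no_free [Finite X] [Nonempty X] (ψ : FreeGroup Bool →* TA X)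
    (hψ : Function.Injective ψ) (hb : ∀ u, Bdd (ψ u)) : False := by
  classical
  let P : List X → Prop := fun v => ∃ u, u ≠ 1 ∧ ψ u v = v ∧ sec (ψ u) v = 1
  have hPext : ∀ v w, P v → P (v ++ w) := by
    rintro v w ⟨u, hu, h1, h2⟩
    refine ⟨u, hu, ?_, ?_⟩
    · rw [TA.append, h1, h2, one_apply]
    · rw [sec_append, h2, sec_one]
  have hlev : ∃ n, ∀ v : List X, v.length = n → P v := by
    by_contra hcon
    push Not at hcon
    let Q : List X → Prop := fun v => ∀ k, ∃ w : List X, w.length = k ∧ ¬ P (v ++ w)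
    obtain ⟨ζ, hζ⟩ := exists_ray Q hcon (by
      intro v hv
      by_contra hno
      push Not at hno
      simp only [Q] at hno
      push Not at hno
      choose k hk using hno
      obtain ⟨K, hK⟩ := (Set.finite_range k).bddAbove
      obtain ⟨w, hw, hw2⟩ := hv (K + 1)
      rcases w with _ | ⟨x, w⟩
      · simp at hw
      · apply hw2
        have h1 : k x ≤ K := hK ⟨x, rfl⟩
        have h2 := hk x (w.take (k x)) (by
          rw [List.length_take]
          simp at hw
          omega)
        have h3 := hPext _ (w.drop (k x)) h2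
        rw [List.append_assoc, List.take_append_drop, List.append_assoc] at h3
        exact h3)
    have hbad : ∀ n, ¬ P (pref ζ n) := by
      intro n
      obtain ⟨w, hw, hw2⟩ := hζ n 0
      rw [List.length_eq_zero_iff] at hw
      rwa [hw, List.append_nil] at hw2
    obtain ⟨u, hu, hu2⟩ := exists_stab ψ hb ζ
    obtain ⟨k, hk, n, hn⟩ := torsion_germ (hb u) hu2
    apply hbad n
    refine ⟨u ^ k, ?_, ?_, ?_⟩
    · intro h
      apply hu
      have h2 : u ^ k = 1 ^ k := by rw [h, one_pow]
      exact pow_left_injective (by omega) h2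
    · have h1 := ray_eq_iff.1 hu2 n
      rw [map_pow]
      exact (sec_pow_of_fixed h1 k).1
    · rw [map_pow]
      exact hn
  obtain ⟨n, hn⟩ := hlev
  let κ : FreeGroup Bool →* Equiv.Perm (List.Vector X n) := (rootY n).comp ψ
  let L : Subgroup (FreeGroup Bool) := κ.ker
  have hL1 : ∀ u ∈ L, ∀ v : List X, v.length = n → ψ u v = v := by
    intro u hu v hv
    have h1 : κ u = 1 := hu
    exact congrArg (fun p : Equiv.Perm (List.Vector X n) => (p ⟨v, hv⟩).1) h1
  have hpow : ∀ u : FreeGroup Bool, u ^ Nat.card (Equiv.Perm (List.Vector X n)) ∈ L := by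
    intro u
    show κ (u ^ _) = 1
    rw [map_pow, pow_card_eq_one']
  have hcard : Nat.card (Equiv.Perm (List.Vector X n)) ≠ 0 := Nat.card_pos.ne'
  set c := Nat.card (Equiv.Perm (List.Vector X n)) with hc
  have hLnc : ∃ x ∈ L, ∃ y ∈ L, x * y ≠ y * x := by
    refine ⟨_, hpow (FreeGroup.of true), _, hpow (FreeGroup.of false), fun h => ?_⟩
    have h1 : Commute (FreeGroup.of true) ((FreeGroup.of false) ^ c) := by
      apply commute_of_zpow (k := (c : ℤ)) (by exact_mod_cast hcard)
      rw [zpow_natCast]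
      exact h
    have h2 : Commute (FreeGroup.of false) (FreeGroup.of true) := by
      apply commute_of_zpow (k := (c : ℤ)) (by exact_mod_cast hcard)
      rw [zpow_natCast]
      exact h1.symm
    have h3 := h2.eq
    have h4 := congrArg FreeGroup.toWord h3
    revert h4
    decide
  let σ : List.Vector X n → (L →* TA X) := fun v =>
    { toFun := fun u => sec (ψ u.1) v.1
      map_one' := by simp
      map_mul' := by
        intro a b
        show sec (ψ (a.1 * b.1)) v.1 = _
        rw [map_mul, sec_mul, hL1 b.1 b.2 v.1 v.2] }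
  have : Finite (List.Vector X n) := inferInstance
  have : Fintype (List.Vector X n) := Fintype.ofFinite _
  obtain ⟨x, hx1, hx2⟩ := iInf_ne_bot hLnc (Finset.univ : Finset (List.Vector X n))
    (fun v => (σ v).ker) (fun v => inferInstance) (by
      intro v _
      obtain ⟨u, hu, h1, h2⟩ := hn v.1 v.2
      rw [Subgroup.ne_bot_iff_exists_ne_one]
      refine ⟨⟨⟨u ^ c, hpow u⟩, ?_⟩, ?_⟩
      · show sec (ψ (u ^ c)) v.1 = 1
        rw [map_pow, (sec_pow_of_fixed h1 c).2, h2, one_pow]
      · intro h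
        apply hu
        have h3 : u ^ c = 1 := congrArg (fun z => ((z.1 : L) : FreeGroup Bool)) h
        have h4 : u ^ c = 1 ^ c := by rw [h3, one_pow]
        exact pow_left_injective hcard h4)
  have h1 : ψ x.1 = 1 := by
    apply eq_one_of _ n
    intro v hv
    exact ⟨hL1 x.1 x.2 v hv, hx2 ⟨v, hv⟩ (Finset.mem_univ _)⟩
  apply hx1
  apply Subtype.ext
  apply hψ
  rw [h1]
  simp

end Pool.Agent.Lib.Helper67.BA
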