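import Pool.Agent.Lib.Helper67.BA.Rays

/-!
# The group generated by letters, and its wreath recursion
-/

namespace Pool.Agent.Lib.Helper67.BA

open TA

/-- Permutational wreath product. -/
@[ext] structure Wr (T Y : Type) where
  /-- coordinates -/
  f : Y → T
  /-- permutation -/
  p : Equiv.Perm Y

namespace Wr

variable {T Y : Type} [Group T]

instance : Mul (Wr T Y) := ⟨fun a b => ⟨fun y => a.f (b.p y) * b.f y, a.p * b.p⟩⟩
instance : One (Wr T Y) := ⟨⟨fun _ => 1, 1⟩⟩
instance : Inv (Wr T Y) := ⟨fun a => ⟨fun y => (a.f (a.p⁻¹ y))⁻¹, a.p⁻¹⟩⟩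

@[simp] theorem mul_f (a b : Wr T Y) (y : Y) : (a * b).f y = a.f (b.p y) * b.f y := rfl
@[simp] theorem mul_p (a b : Wr T Y) : (a * b).p = a.p * b.p := rfl
@[simp] theorem one_f (y : Y) : (1 : Wr T Y).f y = 1 := rfl
@[simp] theorem one_p : (1 : Wr T Y).p = 1 := rfl
@[simp] theorem inv_f (a : Wr T Y) (y : Y) : (a⁻¹).f y = (a.f (a.p⁻¹ y))⁻¹ := rfl
@[simp] theorem inv_p (a : Wr T Y) : (a⁻¹).p = a.p⁻¹ := rfl

instance : Group (Wr T Y) where
  mul_assoc a b c := by
    ext y
    · simp [mul_assoc]
    · simp [mul_assoc]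
  one_mul a := by
    ext y
    · simp
    · simp
  mul_one a := by
    ext y
    · simp
    · simp
  inv_mul_cancel a := by
    ext y
    · simp
    · simp

/-- the permutation part -/
def perm : Wr T Y →* Equiv.Perm Y where
  toFun a := a.p
  map_one' := rfl
  map_mul' _ _ := rfl

@[simp] theorem perm_apply (a : Wr T Y) : perm a = a.p := rfl

end Wr

variable {X : Type}

/-- action on words of length `m` -/
def rootY (m : ℕ) : TA X →* Equiv.Perm (List.Vector X m) where
  toFun g :=
    { toFun := fun y => ⟨g y.1, by rw [TA.length]; exact y.2⟩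
      invFun := fun y => ⟨g⁻¹ y.1, by rw [TA.length]; exact y.2⟩
      left_inv := fun y => Subtype.ext (by simp)
      right_inv := fun y => Subtype.ext (by simp) }
  map_one' := by ext1 y; rfl
  map_mul' g h := by ext1 y; rfl

@[simp] theorem rootY_val (m : ℕ) (g : TA X) (y : List.Vector X m) :
    (rootY m g y).1 = g y.1 := rfl

/-- The wreath recursion of the full automorphism group. -/
def wrec (m : ℕ) : TA X →* Wr (TA X) (List.Vector X m) where
  toFun g := ⟨fun y => sec g y.1, rootY m g⟩
  map_one' := by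
    ext y
    · simp
    · simp
  map_mul' g h := by
    refine Wr.ext (funext fun y => ?_) ?_
    · show sec (g * h) y.1 = sec g (h y.1) * sec h y.1
      rw [sec_mul]
    · simp

variable (X) in
/-- Directed automorphisms with their ray. -/
structure DirT (m : ℕ) : Type where
  /-- the automorphism -/
  d : TA X
  /-- the ray -/
  ξ : ℕ → X
  dir : Dir m d ξ

variable (X) in
/-- letters -/
abbrev Lt (m : ℕ) : Type := (Dep X m) ⊕ (DirT X m)

/-- the automorphism given by a letter -/
def evL {m : ℕ} : Lt X m → TA X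
  | Sum.inl a => a.1
  | Sum.inr d => d.d

variable (X) in
/-- relators -/
inductive Rel (m : ℕ) : FreeGroup (Lt X m) → Prop
  | dep (a b : Dep X m) : Rel m (FreeGroup.of (Sum.inl a) * FreeGroup.of (Sum.inl b) *
      (FreeGroup.of (Sum.inl (a * b)))⁻¹)
  | dir (e d : DirT X m) (h : e.ξ = ray d.d d.ξ) :
      Rel m (FreeGroup.of (Sum.inr e) * FreeGroup.of (Sum.inr d) *
      (FreeGroup.of (Sum.inr ⟨e.d * d.d, d.ξ, (h ▸ e.dir : Dir m e.d (ray d.d d.ξ)).mul
        d.dir⟩))⁻¹)

variable (X) in
/-- the group generated by the letters, with the composition relations -/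
abbrev TT (m : ℕ) : Type := PresentedGroup {r : FreeGroup (Lt X m) | Rel X m r}

/-- image of a letter -/
def lt {m : ℕ} (l : Lt X m) : TT X m := PresentedGroup.of l

theorem lt_dep {m : ℕ} (a b : Dep X m) : lt (Sum.inl a) * lt (Sum.inl b) =
    (lt (Sum.inl (a * b)) : TT X m) := by
  have h : PresentedGroup.mk {r : FreeGroup (Lt X m) | Rel X m r} _ = 1 :=
    PresentedGroup.one_of_mem (Rel.dep a b)
  rw [map_mul, map_mul, map_inv, mul_inv_eq_one] at h
  exact h

theorem lt_dir {m : ℕ} (e d : DirT X m) (h : e.ξ = ray d.d d.ξ) :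
    lt (Sum.inr e) * lt (Sum.inr d) =
    (lt (Sum.inr ⟨e.d * d.d, d.ξ, (h ▸ e.dir : Dir m e.d (ray d.d d.ξ)).mul
        d.dir⟩) : TT X m) := by
  have h : PresentedGroup.mk {r : FreeGroup (Lt X m) | Rel X m r} _ = 1 :=
    PresentedGroup.one_of_mem (Rel.dir e d h)
  rw [map_mul, map_mul, map_inv, mul_inv_eq_one] at h
  exact h

theorem lt_dep_one {m : ℕ} : (lt (Sum.inl 1) : TT X m) = 1 := by
  have h := lt_dep (1 : Dep X m) 1
  rw [mul_one] at h
  exact mul_eq_left.1 h

theorem lt_dir_one {m : ℕ} {d : DirT X m} (h : d.d = 1) : (lt (Sum.inr d) : TT X m) = 1 := by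
  obtain ⟨g, ξ, hd⟩ := d
  simp only at h
  subst h
  have h := lt_dir (m := m) ⟨1, ξ, hd⟩ ⟨1, ξ, hd⟩ (by simp)
  simp only [mul_one] at h
  exact mul_eq_left.1 h

/-- evaluation -/
def ev {m : ℕ} : TT X m →* TA X :=
  PresentedGroup.toGroup (f := evL) (by
    intro r hr
    cases hr with
    | dep a b => simp [evL]
    | dir e d h => simp [evL])

@[simp] theorem ev_lt {m : ℕ} (l : Lt X m) : ev (lt l) = evL l := PresentedGroup.toGroup.of _

open Classical in
/-- the section of a letter -/
noncomputable def secL {m : ℕ} (l : Lt X m) (y : List.Vector X m) : TT X m :=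
  match l with
  | Sum.inl _ => 1
  | Sum.inr d =>
    if h : y.1 = pref d.ξ m then
      lt (Sum.inr ⟨sec d.d (pref d.ξ m), shift m d.ξ, d.dir.sec⟩)
    else lt (Sum.inl ⟨sec d.d y.1, d.dir.off y.2 h⟩)

theorem ev_secL {m : ℕ} (l : Lt X m) (y : List.Vector X m) :
    ev (secL l y) = sec (evL l) y.1 := by
  classical
  rcases l with a | d
  · simp only [secL, map_one, evL]
    exact (a.2 y.1 y.2).symm
  · unfold secL
    by_cases h : y.1 = pref d.ξ m
    · simp only [h, dif_pos, ev_lt, evL]
    · simp only [h, dif_neg, not_false_eq_true, ev_lt, evL]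

/-- the wreath recursion on letters -/
noncomputable def recL {m : ℕ} (l : Lt X m) : Wr (TT X m) (List.Vector X m) :=
  ⟨secL l, rootY m (evL l)⟩

/-- The wreath recursion. -/
noncomputable def rec' {m : ℕ} : TT X m →* Wr (TT X m) (List.Vector X m) :=
  PresentedGroup.toGroup (f := recL) (by
    classical
    intro r hr
    cases hr with
    | dep a b =>
      simp only [map_mul, map_inv, FreeGroup.lift_apply_of]
      rw [mul_inv_eq_one]
      ext y
      · simp [recL, secL]
      · simp [recL, evL]
    | dir e d h =>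
      simp only [map_mul, map_inv, FreeGroup.lift_apply_of]
      rw [mul_inv_eq_one]
      obtain ⟨e, η, he⟩ := e
      obtain ⟨d, ξ, hd⟩ := d
      simp only at h he hd
      subst h
      ext y
      · simp only [recL, Wr.mul_f]
        by_cases hy : y.1 = pref ξ m
        · have h1 : (rootY m (evL (Sum.inr (⟨d, ξ, hd⟩ : DirT X m))) y).1 =
              pref (ray d ξ) m := by
            rw [rootY_val, pref_ray, hy]
            rfl
          simp only [secL, h1, hy, dif_pos]
          rw [lt_dir _ _ (by exact shift_ray d ξ m)]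
          congr 3
          show sec e (pref (ray d ξ) m) * sec d (pref ξ m) = sec (e * d) (pref ξ m)
          rw [sec_mul, pref_ray]
        · have h1 : (rootY m (evL (Sum.inr (⟨d, ξ, hd⟩ : DirT X m))) y).1 ≠
              pref (ray d ξ) m := Dir.off_image hy
          simp only [secL, h1, hy, dif_neg, not_false_eq_true]
          rw [lt_dep]
          congr 2
          apply Subtype.ext
          show sec e (d y.1) * sec d y.1 = sec (e * d) y.1
          rw [sec_mul]
      · simp [recL, evL])

@[simp] theorem rec_lt {m : ℕ} (l : Lt X m) : rec' (lt l) = recL l := PresentedGroup.toGroup.of _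

/-- compatibility of the recursions -/
theorem ev_rec {m : ℕ} (γ : TT X m) :
    (∀ y, ev ((rec' γ).f y) = sec (ev γ) y.1) ∧ (rec' γ).p = rootY m (ev γ) := by
  have key : ∀ γ : TT X m, (⟨fun y => ev ((rec' γ).f y), (rec' γ).p⟩ :
      Wr (TA X) (List.Vector X m)) = wrec m (ev γ) := by
    intro γ
    let F : Wr (TT X m) (List.Vector X m) →* Wr (TA X) (List.Vector X m) :=
      { toFun := fun a => ⟨fun y => ev (a.f y), a.p⟩
        map_one' := by
          ext y
          · simp
          · simp
        map_mul' := by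
          intro a b
          ext y
          · simp
          · simp }
    have h1 : F.comp rec' = (wrec m).comp ev := by
      apply PresentedGroup.ext
      intro l
      show F (rec' (lt l)) = wrec m (ev (lt l))
      rw [rec_lt, ev_lt]
      show (⟨fun y => ev (secL l y), rootY m (evL l)⟩ : Wr (TA X) (List.Vector X m)) =
        ⟨fun y => sec (evL l) y.1, rootY m (evL l)⟩
      congr 1
      funext y
      exact ev_secL l y
    exact DFunLike.congr_fun h1 γ
  constructor
  · intro y
    exact congrFun (congrArg Wr.f (key γ)) y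
  · exact congrArg Wr.p (key γ)

end Pool.Agent.Lib.Helper67.BA
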