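import Pool.Agent.Lib.Helper67.BA.Monster

/-!
# Virtually abelian residually finite groups are no monsters
-/

namespace Pool.Agent.Lib.Helper67.BA

open Pool.Agent.Lib.Helper67.FCC

universe u

variable {G : Type u} [Group G]

theorem finite_of_finite_finiteIndex (A : Subgroup G) [hA : A.FiniteIndex] (h : Finite A) :
    Finite G := by
  apply Nat.finite_of_card_ne_zero
  rw [← Subgroup.card_mul_index A]
  exact mul_ne_zero Nat.card_pos.ne' hA.index_ne_zero

theorem finite_of_torsion (hfg : Group.FG G) (hva : VirtAb G) (ht : ∀ g : G, ∃ n, 1 ≤ n ∧ g ^ n = 1) :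
    Finite G := by
  obtain ⟨A, hA, hAc⟩ := hva
  have hAfg : Group.FG A := Subgroup.fg_of_index_ne_zero A
  let _inst : CommGroup A :=
    { (inferInstance : Group A) with
      mul_comm := fun x y => Subtype.ext (hAc x x.2 y y.2) }
  have h1 : Finite A := by
    apply CommGroup.finite_of_fg_isMulTorsion
    intro a
    obtain ⟨n, hn, h⟩ := ht a
    exact isOfFinOrder_iff_pow_eq_one.2 ⟨n, hn, Subtype.ext h⟩
  exact finite_of_finite_finiteIndex A h1

/-! ### type (3) -/

theorem exists_large_index (hinf : Infinite G) (hrf : RF G) (k : ℕ) :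
    ∃ N : Subgroup G, N.Normal ∧ N.FiniteIndex ∧ k < N.index := by
  classical
  obtain ⟨T, hT⟩ := Infinite.exists_subset_card_eq G (k + 1)
  have h1 : ∀ p : G × G, ∃ N : Subgroup G, N.Normal ∧ N.FiniteIndex ∧
      (p.1 ≠ p.2 → p.1⁻¹ * p.2 ∉ N) := by
    intro p
    by_cases hp : p.1 = p.2
    · exact ⟨⊤, inferInstance, inferInstance, fun h => absurd hp h⟩
    · obtain ⟨N, h2, h3, h4⟩ := hrf (p.1⁻¹ * p.2) (by rw [Ne, inv_mul_eq_one]; exact hp)
      exact ⟨N, h2, h3, fun _ => h4⟩
  choose N hN1 hN2 hN3 using h1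
  let M : Subgroup G := ⨅ p : (T ×ˢ T : Finset (G × G)), N p.1
  have hM : M.FiniteIndex := Subgroup.finiteIndex_iInf fun p => hN2 _
  refine ⟨M, Subgroup.normal_iInf_normal fun p => hN1 _, hM, ?_⟩
  have hfin : Finite (G ⧸ M) := Subgroup.finite_quotient_of_finiteIndex
  have h2 : Nat.card T ≤ Nat.card (G ⧸ M) := by
    apply Nat.card_le_card_of_injective (fun t : T => (QuotientGroup.mk t.1 : G ⧸ M))
    intro s t hst
    by_contra hne
    have h3 : (s.1)⁻¹ * t.1 ∈ M := QuotientGroup.eq.1 hst
    have h4 : (s.1)⁻¹ * t.1 ∈ N (s.1, t.1) :=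
      (Subgroup.mem_iInf.1 h3) ⟨(s.1, t.1), Finset.mem_product.2 ⟨s.2, t.2⟩⟩
    exact hN3 (s.1, t.1) (fun h => hne (Subtype.ext h)) h4
  rw [Nat.card_eq_fintype_card, Fintype.card_coe, hT] at h2
  exact h2

theorem infinite_of_finiteIndex (hinf : Infinite G) (N : Subgroup G) [N.FiniteIndex] :
    Infinite N := by
  by_contra h
  rw [not_infinite_iff_finite] at h
  exact not_finite_iff_infinite.2 hinf (finite_of_finite_finiteIndex N h)

theorem eq_one_of_cyclic_infinite {K : Subgroup G} (hK : IsCyclic K) (hinf : Infinite K)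
    {t : G} (ht : t ∈ K) {o : ℕ} (ho : 1 ≤ o) (h : t ^ o = 1) : t = 1 := by
  obtain ⟨c, hc⟩ := hK.exists_generator
  obtain ⟨i, hi⟩ := hc ⟨t, ht⟩
  simp only at hi
  have h1 : c ^ (i * o) = 1 := by
    rw [zpow_mul, hi, zpow_natCast]
    exact Subtype.ext h
  by_cases hi0 : i = 0
  · rw [hi0, zpow_zero] at hi
    exact (congrArg Subtype.val hi).symm
  · exfalso
    have h2 : IsOfFinOrder c := isOfFinOrder_iff_zpow_eq_one.2
      ⟨i * o, mul_ne_zero hi0 (by exact_mod_cast (by omega : o ≠ 0)), h1⟩
    have h3 : Finite (Subgroup.zpowers c) := (finite_zpowers.2 h2).to_subtype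
    have h4 : Finite K := by
      apply Finite.of_surjective (fun x : Subgroup.zpowers c => x.1)
      intro x
      exact ⟨⟨x, hc x⟩, rfl⟩
    exact not_finite K

/-- residually finite infinite groups all of whose proper subgroups are cyclic are cyclic -/
theorem cyclic_of_proper (hinf : Infinite G) (hrf : RF G)
    (h : ∀ H : Subgroup G, H ≠ ⊤ → IsCyclic H) : IsCyclic G := by
  -- torsion free
  have htf : ∀ (t : G) (o : ℕ), 1 ≤ o → t ^ o = 1 → t = 1 := by
    intro t o ho hto
    obtain ⟨N, hN1, hN2, hN3⟩ := exists_large_index hinf hrf o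
    have hK : Subgroup.zpowers t ⊔ N ≠ ⊤ := by
      intro htop
      have hfin : Finite (G ⧸ N) := Subgroup.finite_quotient_of_finiteIndex
      have h1 : ∀ x : G ⧸ N, x ∈ Subgroup.zpowers (QuotientGroup.mk t : G ⧸ N) := by
        intro x
        obtain ⟨g, rfl⟩ := QuotientGroup.mk_surjective x
        have h2 : g ∈ Subgroup.zpowers t ⊔ N := by rw [htop]; exact Subgroup.mem_top g
        rw [Subgroup.mem_sup_of_normal_right] at h2
        obtain ⟨y, hy, z, hz, rfl⟩ := h2
        obtain ⟨i, rfl⟩ := hy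
        refine ⟨i, ?_⟩
        simp only [QuotientGroup.mk_mul, QuotientGroup.mk_zpow]
        rw [(QuotientGroup.eq_one_iff z).2 hz, mul_one]
      have h2 : orderOf (QuotientGroup.mk t : G ⧸ N) = Nat.card (G ⧸ N) :=
        orderOf_eq_card_of_forall_mem_zpowers h1
      have h3 : orderOf (QuotientGroup.mk t : G ⧸ N) ≤ o := by
        apply orderOf_le_of_pow_eq_one ho
        rw [← QuotientGroup.mk_pow, hto]
        rfl
      have h4 : N.index = Nat.card (G ⧸ N) := rfl
      omega
    have h1 := h _ hK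
    have hNfi := hN2
    have h2 : Infinite (Subgroup.zpowers t ⊔ N : Subgroup G) := by
      have : (Subgroup.zpowers t ⊔ N).FiniteIndex := Subgroup.finiteIndex_of_le le_sup_right
      exact infinite_of_finiteIndex hinf _
    exact eq_one_of_cyclic_infinite h1 h2
      ((le_sup_left : Subgroup.zpowers t ≤ _) (Subgroup.mem_zpowers t)) ho hto
  -- commutative
  have hcomm : ∀ x y : G, x * y = y * x := by
    by_contra hcon
    push Not at hcon
    obtain ⟨x, y, hxy⟩ := hcon
    obtain ⟨N, hN1, hN2, hN3⟩ := hrf (x * y * (y * x)⁻¹) (by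
      rw [Ne, mul_inv_eq_one]; exact hxy)
    have hcen : N ≤ Subgroup.center G := by
      intro z hz
      rw [Subgroup.mem_center_iff]
      intro g
      have hK : Subgroup.zpowers g ⊔ N ≠ ⊤ := by
        intro htop
        apply hN3
        have h1 : ∀ x : G, ∃ i : ℤ, (QuotientGroup.mk x : G ⧸ N) = (QuotientGroup.mk g) ^ i := by
          intro x
          have h2 : x ∈ Subgroup.zpowers g ⊔ N := by rw [htop]; exact Subgroup.mem_top x
          rw [Subgroup.mem_sup_of_normal_right] at h2
          obtain ⟨y, hy, z, hz, rfl⟩ := h2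
          obtain ⟨i, rfl⟩ := hy
          refine ⟨i, ?_⟩
          simp only [QuotientGroup.mk_mul, QuotientGroup.mk_zpow]
          rw [(QuotientGroup.eq_one_iff z).2 hz, mul_one]
        rw [← QuotientGroup.eq_one_iff]
        obtain ⟨i, hi⟩ := h1 x
        obtain ⟨j, hj⟩ := h1 y
        simp only [QuotientGroup.mk_mul, QuotientGroup.mk_inv]
        rw [hi, hj, mul_inv_eq_one]
        exact (Commute.refl _).zpow_zpow i j
      have h1 := comm_of_isCyclic (h _ hK) g
        ((le_sup_left : Subgroup.zpowers g ≤ _) (Subgroup.mem_zpowers g)) z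
        ((le_sup_right : N ≤ _) hz)
      exact h1
    have hcfi : (Subgroup.center G).FiniteIndex := Subgroup.finiteIndex_of_le hcen
    have h1 : Function.Injective (MonoidHom.transferCenterPow G) := by
      rw [injective_iff_map_eq_one]
      intro g hg
      have h2 := congrArg Subtype.val hg
      rw [MonoidHom.transferCenterPow_apply] at h2
      exact htf g _ (Nat.one_le_iff_ne_zero.2 hcfi.index_ne_zero) h2
    apply hxy
    apply h1
    rw [map_mul, map_mul]
    exact Subtype.ext ((Subgroup.mem_center_iff.1 (MonoidHom.transferCenterPow G y).2) _)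
  -- cyclic
  obtain ⟨N, hN1, hN2, hN3⟩ := exists_large_index hinf hrf 1
  have hNt : N ≠ ⊤ := by
    rintro rfl
    simp at hN3
  have hNc := h N hNt
  let f : G →* N :=
    { toFun := fun g => ⟨g ^ N.index, Subgroup.pow_index_mem N g⟩
      map_one' := Subtype.ext (one_pow _)
      map_mul' := fun x y => Subtype.ext ((show Commute x y from hcomm x y).mul_pow _) }
  apply isCyclic_of_injective f
  rw [injective_iff_map_eq_one]
  intro g hg
  exact htf g _ (Nat.one_le_iff_ne_zero.2 hN2.index_ne_zero) (congrArg Subtype.val hg)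

/-! ### polynomial growth -/

theorem VirtAb.growth (hG : VirtAb G) {S : Set G} (hSf : S.Finite) :
    ∃ C d : ℕ, ∀ r : ℕ, Set.ncard {x : G | InBall S r x} ≤ C * (r + 1) ^ d := by
  classical
  obtain ⟨A, hA, hAc⟩ := hG
  let _inst : CommGroup A :=
    { (inferInstance : Group A) with
      mul_comm := fun x y => Subtype.ext (hAc x x.2 y y.2) }
  have hfinq : Finite (G ⧸ A) := Subgroup.finite_quotient_of_finiteIndex
  let rep : G → G := fun g => (QuotientGroup.mk g : G ⧸ A).out
  have hrep : ∀ g, (rep g)⁻¹ * g ∈ A := fun g => by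
    rw [← QuotientGroup.eq]
    exact Quotient.out_eq' _
  let T : Set G := insert 1 (Set.range (fun q : G ⧸ A => q.out))
  have hT : T.Finite := (Set.finite_range _).insert 1
  have hrepT : ∀ g, rep g ∈ T := fun g => Or.inr ⟨_, rfl⟩
  let S' : Set G := S ∪ S⁻¹
  have hS' : S'.Finite := hSf.union hSf.inv
  let U : Set A := (fun p : G × G => (⟨(rep (p.1 * p.2))⁻¹ * (p.1 * p.2), hrep _⟩ : A)) ''
    (S' ×ˢ T)
  have hU : U.Finite := (hS'.prod hT).image _
  have : Fintype U := hU.fintype
  have : Fintype T := hT.fintype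
  have key : ∀ l : List G, (∀ x ∈ l, x ∈ S ∨ x⁻¹ ∈ S) → ∃ t ∈ T, ∃ e : U → ℕ,
      (∀ u, e u ≤ l.length) ∧ l.prod = t * ((∏ u : U, (u : A) ^ (e u) : A) : G) := by
    intro l
    induction l with
    | nil =>
      intro _
      exact ⟨1, Or.inl rfl, fun _ => 0, fun _ => le_rfl, by simp⟩
    | cons s l ih =>
      intro hl
      obtain ⟨t, ht, e, he, hle⟩ := ih fun x hx => hl x (List.mem_cons_of_mem _ hx)
      have hs : s ∈ S' := by
        rcases hl s (by simp) with h | h
        · exact Or.inl h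
        · exact Or.inr h
      let u₀ : U := ⟨⟨(rep (s * t))⁻¹ * (s * t), hrep _⟩, (s, t), ⟨hs, ht⟩, rfl⟩
      refine ⟨rep (s * t), hrepT _, fun u => e u + if u = u₀ then 1 else 0, ?_, ?_⟩
      · intro u
        have h1 := he u
        show e u + (if u = u₀ then 1 else 0) ≤ (s :: l).length
        rw [List.length_cons]
        split_ifs <;> omega
      · have h1 : (∏ u : U, (u : A) ^ (e u + if u = u₀ then 1 else 0) : A) =
            (u₀ : A) * ∏ u : U, (u : A) ^ (e u) := by
          simp only [pow_add, Finset.prod_mul_distrib, pow_ite, pow_one, pow_zero,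
            Finset.prod_ite_eq', Finset.mem_univ, if_true]
          exact mul_comm _ _
        rw [h1, Subgroup.coe_mul, List.prod_cons, hle]
        show s * (t * _) = rep (s * t) * ((rep (s * t))⁻¹ * (s * t) * _)
        group
  refine ⟨Fintype.card T, Fintype.card U, fun r => ?_⟩
  let F : T × (U → Fin (r + 1)) → G := fun p =>
    p.1 * ((∏ u : U, (u : A) ^ ((p.2 u : Fin (r + 1)) : ℕ) : A) : G)
  have hsub : {x : G | InBall S r x} ⊆ Set.range F := by
    rintro x ⟨l, hl, hl2, rfl⟩
    obtain ⟨t, ht, e, he, hle⟩ := key l hl2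
    refine ⟨(⟨t, ht⟩, fun u => ⟨e u, by have := he u; omega⟩), ?_⟩
    rw [hle]
  calc Set.ncard {x : G | InBall S r x} ≤ Set.ncard (Set.range F) :=
        Set.ncard_le_ncard hsub (Set.finite_range F)
    _ ≤ Nat.card (T × (U → Fin (r + 1))) := by
        rw [← Set.image_univ]
        refine (Set.ncard_image_le Set.finite_univ).trans ?_
        rw [Set.ncard_univ]
    _ = Fintype.card T * (r + 1) ^ Fintype.card U := by
        rw [Nat.card_eq_fintype_card, Fintype.card_prod, Fintype.card_fun, Fintype.card_fin]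

/-- Virtually abelian residually finite groups are no monsters. -/
theorem VirtAb.not_monster (hG : VirtAb G) (hrf : RF G) (k : ℕ) : ¬ IsMonster k G := by
  rintro ⟨hfg, hinf, h⟩
  have hne : ∃ g : G, g ≠ 1 := exists_ne 1
  rcases h with ⟨-, n, hn, h⟩ | ⟨-, h1, h⟩ | ⟨-, p, hp, h⟩ | ⟨-, h⟩ | ⟨-, h⟩ |
    ⟨-, S, hSf, hS, h, -⟩
  · exact not_finite_iff_infinite.2 hinf (finite_of_torsion hfg hG fun g => ⟨n, hn, h g⟩)
  · exact h1 (cyclic_of_proper hinf hrf h)
  · refine not_finite_iff_infinite.2 hinf (finite_of_torsion hfg hG fun g => ?_)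
    have key : ∀ g : G, Subgroup.zpowers g ≠ ⊤ → ∃ n, 1 ≤ n ∧ g ^ n = 1 := by
      intro g hg
      by_cases hg1 : g = 1
      · exact ⟨1, le_rfl, by rw [hg1, one_pow]⟩
      · have h1 := (h (Subgroup.zpowers g) (by
          rw [Ne, Subgroup.zpowers_eq_bot]; exact hg1) hg).2
        rw [Nat.card_zpowers] at h1
        exact ⟨p, hp.one_le, by rw [← h1, pow_orderOf_eq_one]⟩
    by_cases hg : Subgroup.zpowers g = ⊤
    · -- the square generates a proper subgroup
      have h2 : Subgroup.zpowers (g ^ 2) ≠ ⊤ := by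
        intro htop
        have h3 : g ∈ Subgroup.zpowers (g ^ 2) := by rw [htop]; exact Subgroup.mem_top g
        obtain ⟨i, hi⟩ := h3
        simp only at hi
        have h4 : g ^ (2 * i - 1) = 1 := by
          rw [zpow_sub_one, zpow_mul, zpow_ofNat, hi, mul_inv_cancel]
        have h5 : IsOfFinOrder g := isOfFinOrder_iff_zpow_eq_one.2 ⟨2 * i - 1, by omega, h4⟩
        have h6 : Finite (Subgroup.zpowers g) :=
          (finite_zpowers.2 h5).to_subtype
        have h7 : Finite G := by
          apply Finite.of_surjective (fun x : Subgroup.zpowers g => x.1)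
          intro x
          exact ⟨⟨x, by rw [hg]; exact Subgroup.mem_top x⟩, rfl⟩
        exact not_finite_iff_infinite.2 hinf h7
      obtain ⟨n, hn, h3⟩ := key _ h2
      exact ⟨2 * n, by omega, by rw [pow_mul, h3]⟩
    · exact key g hg
  · obtain ⟨g, hg⟩ := hne
    obtain ⟨N, hN1, hN2, hN3⟩ := hrf g hg
    exact hN3 (not_mem_of_divisible h g)
  · obtain ⟨A, hA, hAc⟩ := hG
    have h1 : Finite (ConjClasses A) := finite_of_finiteIndex A
    let _inst : CommGroup A :=
      { (inferInstance : Group A) with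
        mul_comm := fun x y => Subtype.ext (hAc x x.2 y y.2) }
    have h2 : Finite A := by
      apply Finite.of_injective (ConjClasses.mk (α := A))
      intro a b hab
      rw [ConjClasses.mk_eq_mk_iff_isConj] at hab
      exact isConj_iff_eq.1 hab
    exact not_finite_iff_infinite.2 hinf (finite_of_finite_finiteIndex A h2)
  · obtain ⟨C, d, hCd⟩ := hG.growth hSf
    obtain ⟨r, hr⟩ := h (Polynomial.C (C : ℝ) * (Polynomial.X + 1) ^ d)
    have h1 := hCd r
    have h2 : (Set.ncard {x : G | InBall S r x} : ℝ) ≤ (C : ℝ) * ((r : ℝ) + 1) ^ d := by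
      exact_mod_cast h1
    simp only [Polynomial.eval_mul, Polynomial.eval_C, Polynomial.eval_pow, Polynomial.eval_add,
      Polynomial.eval_X, Polynomial.eval_one] at hr
    exact absurd h2 (not_le.2 hr)

end Pool.Agent.Lib.Helper67.BA
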