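import Pool.Agent.Lib.Helper67.BA.Letters

/-!
# Elements acting trivially have trivial deep sections
-/

namespace Pool.Agent.Lib.Helper67.BA

open TA

variable {X : Type} {m : ℕ}

/-- iterated sections in `TT` -/
noncomputable def secs (γ : TT X m) : List (List.Vector X m) → TT X m
  | [] => γ
  | y :: v => secs ((rec' γ).f y) v

/-- iterated action -/
noncomputable def acts (γ : TT X m) : List (List.Vector X m) → List (List.Vector X m)
  | [] => []
  | y :: v => (rec' γ).p y :: acts ((rec' γ).f y) v

theorem secs_one (v : List (List.Vector X m)) : secs (1 : TT X m) v = 1 := by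
  induction v with
  | nil => rfl
  | cons y v ih =>
    rw [secs, map_one, Wr.one_f, ih]

theorem secs_append (γ : TT X m) (v w : List (List.Vector X m)) :
    secs γ (v ++ w) = secs (secs γ v) w := by
  induction v generalizing γ with
  | nil => rfl
  | cons y v ih =>
    rw [List.cons_append, secs, secs, ih]

theorem secs_mul (γ δ : TT X m) (v : List (List.Vector X m)) :
    secs (γ * δ) v = secs γ (acts δ v) * secs δ v := by
  induction v generalizing γ δ with
  | nil => rfl
  | cons y v ih =>
    rw [secs, acts, secs, secs, map_mul, Wr.mul_f, ih]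

/-- concatenation of blocks -/
def flat (v : List (List.Vector X m)) : List X := (v.map (fun y => y.1)).flatten

@[simp] theorem flat_nil : flat ([] : List (List.Vector X m)) = [] := rfl

@[simp] theorem flat_cons (y : List.Vector X m) (v : List (List.Vector X m)) :
    flat (y :: v) = y.1 ++ flat v := by simp [flat]

theorem length_flat (v : List (List.Vector X m)) : (flat v).length = v.length * m := by
  induction v with
  | nil => simp
  | cons y v ih =>
    rw [flat_cons, List.length_append, ih, y.2, List.length_cons]
    ring

theorem ev_secs (γ : TT X m) (v : List (List.Vector X m)) :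
    ev (secs γ v) = sec (ev γ) (flat v) := by
  induction v generalizing γ with
  | nil => simp [secs]
  | cons y v ih =>
    rw [secs, ih, (ev_rec γ).1, flat_cons, sec_append]

theorem flat_acts (γ : TT X m) (v : List (List.Vector X m)) :
    flat (acts γ v) = ev γ (flat v) := by
  induction v generalizing γ with
  | nil => simp [acts]
  | cons y v ih =>
    rw [acts, flat_cons, flat_cons, ih, (ev_rec γ).2, (ev_rec γ).1, rootY_val, TA.append]

theorem length_acts (γ : TT X m) (v : List (List.Vector X m)) :
    (acts γ v).length = v.length := by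
  induction v generalizing γ with
  | nil => rfl
  | cons y v ih => rw [acts, List.length_cons, List.length_cons, ih]

theorem flat_inj {v w : List (List.Vector X m)} (hl : v.length = w.length)
    (h : flat v = flat w) : v = w := by
  induction v generalizing w with
  | nil =>
    cases w with
    | nil => rfl
    | cons _ _ => simp at hl
  | cons y v ih =>
    cases w with
    | nil => simp at hl
    | cons z w =>
      rw [flat_cons, flat_cons] at h
      have h1 : y.1 = z.1 := List.append_inj_left h (by rw [y.2, z.2])
      have h2 : flat v = flat w := by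
        rw [h1] at h
        exact List.append_cancel_left h
      rw [Subtype.ext h1, ih (by simpa using hl) h2]

theorem acts_eq_self {γ : TT X m} {v : List (List.Vector X m)} (h : ev γ (flat v) = flat v) :
    acts γ v = v :=
  flat_inj (length_acts γ v) (by rw [flat_acts, h])

/-- all sections at some level are trivial -/
def Good (γ : TT X m) : Prop := ∃ n : ℕ, ∀ v : List (List.Vector X m), v.length = n →
  secs γ v = 1

theorem Good.mono {γ : TT X m} {n k : ℕ} (hnk : n ≤ k)
    (h : ∀ v : List (List.Vector X m), v.length = n → secs γ v = 1)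
    (v : List (List.Vector X m)) (hv : v.length = k) : secs γ v = 1 := by
  rw [← List.take_append_drop n v, secs_append, h _ (by rw [List.length_take]; omega), secs_one]

theorem Good.one : Good (1 : TT X m) := ⟨0, fun v _ => secs_one v⟩

theorem Good.of_sections [Finite X] {γ : TT X m} (h : ∀ y, Good ((rec' γ).f y)) : Good γ := by
  choose n hn using h
  have hf : Finite (List.Vector X m) := inferInstance
  obtain ⟨N, hN⟩ := (Set.finite_range n).bddAbove
  refine ⟨N + 1, fun v hv => ?_⟩
  cases v with
  | nil => simp at hv
  | cons y v =>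
    rw [secs]
    exact Good.mono (hN ⟨y, rfl⟩) (hn y) v (by simpa using hv)

/-- value of a word -/
def valT (w : List (Lt X m)) : TT X m := (w.map lt).prod

@[simp] theorem valT_nil : valT ([] : List (Lt X m)) = 1 := rfl

@[simp] theorem valT_cons (l : Lt X m) (w : List (Lt X m)) : valT (l :: w) = lt l * valT w := by
  simp [valT]

@[simp] theorem valT_append (w w' : List (Lt X m)) : valT (w ++ w') = valT w * valT w' := by
  simp [valT]

/-- number of directed letters -/
def Dc (w : List (Lt X m)) : ℕ := w.countP (fun l => l.isRight)

@[simp] theorem Dc_nil : Dc ([] : List (Lt X m)) = 0 := rfl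

@[simp] theorem Dc_inl (a : Dep X m) (w : List (Lt X m)) : Dc (Sum.inl a :: w) = Dc w := by
  simp [Dc]

@[simp] theorem Dc_inr (d : DirT X m) (w : List (Lt X m)) : Dc (Sum.inr d :: w) = Dc w + 1 := by
  rw [Dc, List.countP_cons_of_pos (by rfl)]; rfl

theorem Dc_le (w : List (Lt X m)) : Dc w ≤ w.length := List.countP_le_length

open Classical in
/-- section of a letter as a word -/
noncomputable def secLL (l : Lt X m) (y : List.Vector X m) : List (Lt X m) :=
  match l with
  | Sum.inl _ => []
  | Sum.inr d =>
    if h : y.1 = pref d.ξ m then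
      [Sum.inr ⟨sec d.d (pref d.ξ m), shift m d.ξ, d.dir.sec⟩]
    else [Sum.inl ⟨sec d.d y.1, d.dir.off y.2 h⟩]

theorem valT_secLL (l : Lt X m) (y : List.Vector X m) : valT (secLL l y) = secL l y := by
  rcases l with a | d
  · rfl
  · unfold secLL secL
    by_cases h : y.1 = pref d.ξ m
    · simp [h]
    · simp [h]

/-- section of a word -/
noncomputable def secW : List (Lt X m) → List.Vector X m → List (Lt X m)
  | [], _ => []
  | l :: w, y => secLL l (rootY m (ev (valT w)) y) ++ secW w y

theorem valT_secW (w : List (Lt X m)) (y : List.Vector X m) :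
    valT (secW w y) = (rec' (valT w)).f y := by
  induction w with
  | nil => simp [secW]
  | cons l w ih =>
    rw [secW, valT_append, valT_secLL, ih, valT_cons, map_mul, Wr.mul_f, rec_lt, (ev_rec _).2]
    rfl

theorem length_secW (w : List (Lt X m)) (y : List.Vector X m) :
    (secW w y).length = Dc w := by
  induction w with
  | nil => rfl
  | cons l w ih =>
    rw [secW, List.length_append, ih]
    rcases l with a | d
    · simp [secLL]
    · unfold secLL
      by_cases h : (rootY m (ev (valT w)) y).1 = pref d.ξ m
      · simp only [h, dif_pos, List.length_singleton, Dc_inr]; ring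
      · simp only [h, dif_neg, not_false_eq_true, List.length_singleton, Dc_inr]; ring

theorem ev_secW {w : List (Lt X m)} (h : ev (valT w) = 1) (y : List.Vector X m) :
    ev (valT (secW w y)) = 1 := by
  rw [valT_secW, (ev_rec _).1, h, sec_one]

/-- words of directed letters whose rays differ -/
theorem good_pure [Finite X] (k : ℕ)
    (IH : ∀ w : List (Lt X m), Dc w < k → ev (valT w) = 1 → Good (valT w)) :
    ∀ (j : ℕ) (e d : DirT X m) (u : List (Lt X m)),
      (Sum.inr e :: Sum.inr d :: u : List (Lt X m)).length = k →
      pref e.ξ (j * m) ≠ pref (ray d.d d.ξ) (j * m) →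
      ev (valT (Sum.inr e :: Sum.inr d :: u)) = 1 → Good (valT (Sum.inr e :: Sum.inr d :: u)) := by
  intro j
  induction j with
  | zero =>
    intro e d u _ h _
    simp at h
  | succ j ih =>
    intro e d u hk hne hev
    apply Good.of_sections
    intro y
    rw [← valT_secW]
    have hev2 := ev_secW hev y
    have hlen : (secW (Sum.inr e :: Sum.inr d :: u) y).length ≤ k := by
      rw [length_secW]
      exact (Dc_le _).trans hk.le
    by_cases hlt : Dc (secW (Sum.inr e :: Sum.inr d :: u) y) < k
    · exact IH _ hlt hev2
    · push Not at hlt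
      -- all letters are directed
      have hDc : Dc (secW (Sum.inr e :: Sum.inr d :: u) y) =
          (secW (Sum.inr e :: Sum.inr d :: u) y).length :=
        le_antisymm (Dc_le _) (hlen.trans hlt)
      have hlenk : (secW (Sum.inr e :: Sum.inr d :: u) y).length = k :=
        le_antisymm hlen (hlt.trans (Dc_le _))
      have hall : ∀ l ∈ secW (Sum.inr e :: Sum.inr d :: u) y, Sum.isRight l = true := by
        intro l hl
        exact List.countP_eq_length.1 hDc l hl
      have hform : secW (Sum.inr e :: Sum.inr d :: u) y =
          secLL (Sum.inr e) (rootY m (ev (valT (Sum.inr d :: u))) y) ++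
          (secLL (Sum.inr d) (rootY m (ev (valT u)) y) ++ secW u y) := rfl
      by_cases h1 : (rootY m (ev (valT u)) y).1 = pref d.ξ m
      swap
      · exfalso
        have h2 : secLL (Sum.inr d) (rootY m (ev (valT u)) y) =
            [Sum.inl ⟨sec d.d (rootY m (ev (valT u)) y).1,
              d.dir.off (rootY m (ev (valT u)) y).2 h1⟩] := by
          unfold secLL
          simp only [h1, dif_neg, not_false_eq_true]
        have h3 := hall (Sum.inl ⟨sec d.d (rootY m (ev (valT u)) y).1,
              d.dir.off (rootY m (ev (valT u)) y).2 h1⟩) (by rw [hform, h2]; simp)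
        simp at h3
      have h4 : (rootY m (ev (valT (Sum.inr d :: u))) y).1 = pref (ray d.d d.ξ) m := by
        rw [valT_cons, map_mul, map_mul, Equiv.Perm.mul_apply, rootY_val, h1, ev_lt, pref_ray]
        rfl
      by_cases h5 : (rootY m (ev (valT (Sum.inr d :: u))) y).1 = pref e.ξ m
      swap
      · exfalso
        have h2 : secLL (Sum.inr e) (rootY m (ev (valT (Sum.inr d :: u))) y) =
            [Sum.inl ⟨sec e.d (rootY m (ev (valT (Sum.inr d :: u))) y).1,
              e.dir.off (rootY m (ev (valT (Sum.inr d :: u))) y).2 h5⟩] := by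
          unfold secLL
          simp only [h5, dif_neg, not_false_eq_true]
        have h3 := hall (Sum.inl ⟨sec e.d (rootY m (ev (valT (Sum.inr d :: u))) y).1,
              e.dir.off (rootY m (ev (valT (Sum.inr d :: u))) y).2 h5⟩)
              (by rw [hform, h2]; simp)
        simp at h3
      have h6 : secLL (Sum.inr d) (rootY m (ev (valT u)) y) =
          [Sum.inr ⟨sec d.d (pref d.ξ m), shift m d.ξ, d.dir.sec⟩] := by
        unfold secLL
        simp only [h1, dif_pos]
      have h7 : secLL (Sum.inr e) (rootY m (ev (valT (Sum.inr d :: u))) y) =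
          [Sum.inr ⟨sec e.d (pref e.ξ m), shift m e.ξ, e.dir.sec⟩] := by
        unfold secLL
        simp only [h5, dif_pos]
      rw [hform, h6, h7] at hev2 hlenk ⊢
      refine ih ⟨sec e.d (pref e.ξ m), shift m e.ξ, e.dir.sec⟩
        ⟨sec d.d (pref d.ξ m), shift m d.ξ, d.dir.sec⟩ (secW u y) hlenk ?_ hev2
      intro h8
      apply hne
      have h9 : (j + 1) * m = m + j * m := by ring
      rw [h9, pref_add, pref_add]
      rw [← h5, h4]
      congr 1
      rw [shift_ray]
      exact h8

/-- **Elements acting trivially have trivial deep sections.** -/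
theorem good_of_ev [Finite X] (hm : 1 ≤ m) : ∀ (k : ℕ) (w : List (Lt X m)), Dc w = k →
    ev (valT w) = 1 → Good (valT w) := by
  intro k
  induction k using Nat.strong_induction_on with
  | _ k IH =>
    intro w hw hev
    have IH' : ∀ w : List (Lt X m), Dc w < k → ev (valT w) = 1 → Good (valT w) :=
      fun w h1 h2 => IH _ h1 w rfl h2
    apply Good.of_sections
    intro y
    rw [← valT_secW]
    have hev2 := ev_secW hev y
    have hlen : (secW w y).length = k := by rw [length_secW, hw]
    by_cases hlt : Dc (secW w y) < k
    · exact IH' _ hlt hev2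
    push Not at hlt
    have hDc : Dc (secW w y) = (secW w y).length :=
      le_antisymm (Dc_le _) (by rw [hlen]; exact hlt)
    have hall : ∀ l ∈ secW w y, Sum.isRight l = true := fun l hl =>
      List.countP_eq_length.1 hDc l hl
    generalize secW w y = w' at hev2 hlen hall
    match w', hev2, hlen, hall with
    | [], _, _, _ => exact Good.one
    | [Sum.inl a], _, _, hall => simp at hall
    | [Sum.inr d], hev2, _, _ =>
      simp only [valT_cons, valT_nil, mul_one, ev_lt, evL] at hev2 ⊢
      rw [lt_dir_one hev2]
      exact Good.one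
    | Sum.inl a :: l :: u, _, _, hall => simp at hall
    | Sum.inr e :: Sum.inl a :: u, _, _, hall => simp at hall
    | Sum.inr e :: Sum.inr d :: u, hev2, hlen, hall =>
      by_cases hc : e.ξ = ray d.d d.ξ
      · -- merge
        have h1 : valT (Sum.inr e :: Sum.inr d :: u) = valT (Sum.inr ⟨e.d * d.d, d.ξ,
            (hc ▸ e.dir : Dir m e.d (ray d.d d.ξ)).mul d.dir⟩ :: u) := by
          rw [valT_cons, valT_cons, valT_cons, ← mul_assoc, lt_dir _ _ hc]
        rw [h1] at hev2 ⊢
        refine IH' _ ?_ hev2
        rw [Dc_inr]
        have h2 := Dc_le u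
        simp only [List.length_cons] at hlen
        omega
      · have h1 : ∃ n, pref e.ξ n ≠ pref (ray d.d d.ξ) n := by
          by_contra hcon
          push Not at hcon
          exact hc (ray_ext hcon)
        obtain ⟨n, hn⟩ := h1
        refine good_pure k IH' n e d u hlen ?_ hev2
        intro h2
        apply hn
        have h3 : n * m = n + (n * m - n) := by
          have : n ≤ n * m := Nat.le_mul_of_pos_right n (by omega)
          omega
        rw [h3, pref_add, pref_add] at h2
        exact List.append_inj_left h2 (by simp)

theorem exists_word (γ : TT X m) : ∃ w : List (Lt X m), valT w = γ := by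
  -- letters are closed under inversion
  have hinv : ∀ l : Lt X m, ∃ l' : Lt X m, (lt l)⁻¹ = lt l' := by
    rintro (a | d)
    · refine ⟨Sum.inl a⁻¹, ?_⟩
      rw [inv_eq_iff_mul_eq_one, lt_dep, mul_inv_cancel, lt_dep_one]
    · refine ⟨Sum.inr ⟨d.d⁻¹, ray d.d d.ξ, d.dir.inv⟩, ?_⟩
      rw [inv_eq_iff_mul_eq_one]
      have h := lt_dir (m := m) ⟨d.d⁻¹, ray d.d d.ξ, d.dir.inv⟩ d rfl
      have h2 := lt_dir_one (m := m) (d := ⟨d.d⁻¹ * d.d, d.ξ,
        (d.dir.inv : Dir m d.d⁻¹ (ray d.d d.ξ)).mul d.dir⟩) (by simp)
      rw [h2] at h
      exact mul_eq_one_comm.1 h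
  have h1 : ∀ x : FreeGroup (Lt X m), ∃ w : List (Lt X m),
      valT w = PresentedGroup.mk {r : FreeGroup (Lt X m) | Rel X m r} x := by
    intro x
    induction x using FreeGroup.induction_on with
    | C1 => exact ⟨[], by simp⟩
    | of l => exact ⟨[l], by simp [lt, PresentedGroup.of]⟩
    | inv_of l _ =>
      obtain ⟨l', hl'⟩ := hinv l
      refine ⟨[l'], ?_⟩
      rw [map_inv]
      simp only [valT_cons, valT_nil, mul_one]
      exact hl'.symm
    | mul x y hx hy =>
      obtain ⟨w, hw⟩ := hx
      obtain ⟨w', hw'⟩ := hy
      exact ⟨w ++ w', by rw [valT_append, hw, hw', map_mul]⟩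
  obtain ⟨x, rfl⟩ := PresentedGroup.mk_surjective _ γ
  exact h1 x

theorem good [Finite X] (hm : 1 ≤ m) {γ : TT X m} (h : ev γ = 1) : Good γ := by
  obtain ⟨w, rfl⟩ := exists_word γ
  exact good_of_ev hm _ w rfl h

end Pool.Agent.Lib.Helper67.BA
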