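import Pool.Agent.Lib.Helper67.BA.Rays

/-!
# Swapping two rays
-/

namespace Pool.Agent.Lib.Helper67.BA

open TA

variable {X : Type}

theorem pref_succ (α : ℕ → X) (n : ℕ) : pref α (n + 1) = α 0 :: pref (shift 1 α) n := by
  rw [add_comm, pref_add]
  rfl

open Classical in
/-- swap two rays -/
noncomputable def swapF : (ℕ → X) → (ℕ → X) → List X → List X
  | _, _, [] => []
  | α, β, x :: w => if x = α 0 then β 0 :: swapF (shift 1 α) (shift 1 β) w
      else if x = β 0 then α 0 :: w else x :: w

theorem swapF_nil (α β : ℕ → X) : swapF α β [] = [] := by simp [swapF]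

open Classical in
theorem swapF_cons (α β : ℕ → X) (x : X) (w : List X) : swapF α β (x :: w) =
    if x = α 0 then β 0 :: swapF (shift 1 α) (shift 1 β) w
      else if x = β 0 then α 0 :: w else x :: w := by
  rw [swapF]

theorem swapF_swapF (w : List X) : ∀ α β : ℕ → X, swapF β α (swapF α β w) = w := by
  classical
  induction w with
  | nil => intro α β; rw [swapF_nil, swapF_nil]
  | cons x w ih =>
    intro α β
    rw [swapF_cons]
    by_cases h1 : x = α 0
    · rw [if_pos h1, swapF_cons, if_pos rfl, ih, h1]
    · rw [if_neg h1]
      by_cases h2 : x = β 0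
      · rw [if_pos h2, swapF_cons, if_neg (by rw [← h2]; exact fun h => h1 h.symm), if_pos rfl,
          h2]
      · rw [if_neg h2, swapF_cons, if_neg h2, if_neg h1]

theorem length_swapF (w : List X) : ∀ α β : ℕ → X, (swapF α β w).length = w.length := by
  classical
  induction w with
  | nil => intro α β; rw [swapF_nil]
  | cons x w ih =>
    intro α β
    rw [swapF_cons]
    split_ifs
    · rw [List.length_cons, ih, List.length_cons]
    · rfl
    · rfl

theorem prefix_swapF (v w : List X) : ∀ α β : ℕ → X, swapF α β v <+: swapF α β (v ++ w) := by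
  classical
  induction v with
  | nil => intro α β; rw [swapF_nil]; exact List.nil_prefix
  | cons x v ih =>
    intro α β
    rw [List.cons_append, swapF_cons, swapF_cons]
    split_ifs
    · exact (List.prefix_cons_inj _).2 (ih _ _)
    · exact (List.prefix_cons_inj _).2 (List.prefix_append _ _)
    · exact (List.prefix_cons_inj _).2 (List.prefix_append _ _)

/-- the swap automorphism -/
noncomputable def swapT (α β : ℕ → X) : TA X :=
  ⟨⟨swapF α β, swapF β α, fun w => swapF_swapF w α β, fun w => swapF_swapF w β α⟩,
    ⟨fun w => length_swapF w α β, fun v w => prefix_swapF v w α β⟩⟩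

theorem swapT_apply (α β : ℕ → X) (w : List X) : swapT α β w = swapF α β w := rfl

theorem swapF_pref (n : ℕ) (w : List X) : ∀ α β : ℕ → X,
    swapF α β (pref α n ++ w) = pref β n ++ swapF (shift n α) (shift n β) w := by
  classical
  induction n with
  | zero => intro α β; simp
  | succ n ih =>
    intro α β
    rw [pref_succ, pref_succ, List.cons_append, List.cons_append, swapF_cons, if_pos rfl, ih,
      shift_shift, shift_shift, add_comm 1 n]

theorem ray_swapT (α β : ℕ → X) : ray (swapT α β) α = β := by
  rw [ray_eq_iff]
  intro n
  have h := swapF_pref n [] α β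
  rw [swapF_nil, List.append_nil, List.append_nil] at h
  exact h

theorem sec_swapT_pref (α β : ℕ → X) (n : ℕ) :
    sec (swapT α β) (pref α n) = swapT (shift n α) (shift n β) := by
  apply sec_unique
  intro w
  rw [← pref_ray, ray_swapT]
  exact swapF_pref n w α β

theorem swapF_off (z w : List X) : ∀ α β : ℕ → X, z ≠ pref α z.length →
    swapF α β (z ++ w) = swapF α β z ++ w := by
  classical
  induction z with
  | nil => intro α β h; simp at h
  | cons x z ih =>
    intro α β h
    rw [List.cons_append, swapF_cons, swapF_cons]
    by_cases h1 : x = α 0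
    · rw [if_pos h1, if_pos h1, List.cons_append, ih]
      intro h2
      apply h
      rw [List.length_cons, pref_succ, h1, ← h2]
    · rw [if_neg h1, if_neg h1]
      split_ifs
      · rfl
      · rfl

theorem sec_swapT_off {α β : ℕ → X} {z : List X} (h : z ≠ pref α z.length) :
    sec (swapT α β) z = 1 := by
  apply sec_unique
  intro w
  exact swapF_off z w α β h

theorem dir_swapT (m : ℕ) (α β : ℕ → X) : Dir m (swapT α β) α := by
  intro j z hz hz2
  rw [sec_append, sec_swapT_pref, sec_swapT_off (by rw [hz]; exact hz2)]
  exact one_mem _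

end Pool.Agent.Lib.Helper67.BA
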