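import Pool.Agent.Lib.Helper67.BA.Kernel
import Pool.Agent.Lib.Helper67.BA.Isotropy
import Pool.Agent.Lib.Helper67.BA.Swap

/-!
# The letter group maps to (free) ⋊ (locally finite)
-/

namespace Pool.Agent.Lib.Helper67.BA

open TA

section General

variable (C E : Type) [Group C]

/-- left multiplication on the basis -/
def vactE (c : C) : C × E ≃ C × E where
  toFun z := (c * z.1, z.2)
  invFun z := (c⁻¹ * z.1, z.2)
  left_inv z := by simp
  right_inv z := by simp

/-- the action of `C` on the free group over `C × E` -/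
def vact : C →* MulAut (FreeGroup (C × E)) where
  toFun c := FreeGroup.freeGroupCongr (vactE C E c)
  map_one' := by
    apply MulEquiv.ext
    intro x
    have h : (FreeGroup.freeGroupCongr (vactE C E 1)).toMonoidHom =
        (MulEquiv.refl (FreeGroup (C × E))).toMonoidHom := by
      ext z
      simp [vactE]
    exact DFunLike.congr_fun h x
  map_mul' a b := by
    apply MulEquiv.ext
    intro x
    have h : (FreeGroup.freeGroupCongr (vactE C E (a * b))).toMonoidHom =
        ((FreeGroup.freeGroupCongr (vactE C E a)) *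
        (FreeGroup.freeGroupCongr (vactE C E b)) : MulAut (FreeGroup (C × E))).toMonoidHom := by
      ext z
      simp [vactE, mul_assoc]
    exact DFunLike.congr_fun h x

theorem vact_of (c : C) (z : C × E) : vact C E c (FreeGroup.of z) =
    FreeGroup.of (c * z.1, z.2) := by
  show FreeGroup.freeGroupCongr (vactE C E c) (FreeGroup.of z) = _
  simp [vactE]

/-- free by `C` -/
abbrev VV : Type := FreeGroup (C × E) ⋊[vact C E] C

variable {C E}

/-- stable letter -/
def tt (e : E) : VV C E := SemidirectProduct.inl (FreeGroup.of (1, e))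

/-- universal property -/
def vlift {H : Type} [Group H] (f : C →* H) (P : E → H) : VV C E →* H :=
  SemidirectProduct.lift (FreeGroup.lift fun z => f z.1 * P z.2 * (f z.1)⁻¹) f (by
    intro g
    ext z
    simp only [MonoidHom.comp_apply, MulEquiv.toMonoidHom_eq_coe, MonoidHom.coe_coe]
    rw [vact_of]
    simp [MulAut.conj_apply, mul_assoc])

theorem vlift_inr {H : Type} [Group H] (f : C →* H) (P : E → H) (c : C) :
    vlift f P (SemidirectProduct.inr c) = f c := by simp [vlift]

theorem vlift_tt {H : Type} [Group H] (f : C →* H) (P : E → H) (e : E) :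
    vlift f P (tt e) = P e := by simp [vlift, tt]

end General

variable {X : Type} {m : ℕ}

variable (X) in
/-- the locally finite group -/
abbrev CC (m : ℕ) (ξ₀ : ℕ → X) : Type := Dep X m × BB X m ξ₀

variable (X) in
/-- the target -/
abbrev VX (m : ℕ) (ξ₀ : ℕ → X) : Type := VV (CC X m ξ₀) (Option (ℕ → X))

/-- the isotropy element of a directed letter -/
noncomputable def iso (ξ₀ : ℕ → X) (d : DirT X m) : BB X m ξ₀ :=
  ⟨(swapT ξ₀ (ray d.d d.ξ))⁻¹ * d.d * swapT ξ₀ d.ξ, by
    constructor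
    · rw [ray_mul, ray_mul, ray_swapT]
      conv_rhs => rw [← ray_inv_ray (swapT ξ₀ (ray d.d d.ξ)) ξ₀, ray_swapT]
    · apply Dir.mul
      · rw [ray_swapT]
        apply Dir.mul
        · have h := (dir_swapT m ξ₀ (ray d.d d.ξ)).inv
          rw [ray_swapT] at h
          exact h
        · exact d.dir
      · exact dir_swapT m ξ₀ d.ξ⟩

theorem iso_mul (ξ₀ : ℕ → X) (e d : DirT X m) (h : e.ξ = ray d.d d.ξ) :
    iso ξ₀ e * iso ξ₀ d = iso ξ₀ ⟨e.d * d.d, d.ξ,
      (h ▸ e.dir : Dir m e.d (ray d.d d.ξ)).mul d.dir⟩ := by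
  apply Subtype.ext
  show ((swapT ξ₀ (ray e.d e.ξ))⁻¹ * e.d * swapT ξ₀ e.ξ) *
    ((swapT ξ₀ (ray d.d d.ξ))⁻¹ * d.d * swapT ξ₀ d.ξ) =
    (swapT ξ₀ (ray (e.d * d.d) d.ξ))⁻¹ * (e.d * d.d) * swapT ξ₀ d.ξ
  rw [ray_mul, h]
  group

/-- value of a letter -/
noncomputable def valL (ξ₀ : ℕ → X) : Lt X m → VX X m ξ₀
  | Sum.inl a => SemidirectProduct.inr (a, 1)
  | Sum.inr d => tt (some (ray d.d d.ξ)) * tt none * SemidirectProduct.inr (1, iso ξ₀ d) *
      (tt none)⁻¹ * (tt (some d.ξ))⁻¹

/-- the map to the target -/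
noncomputable def val (ξ₀ : ℕ → X) : TT X m →* VX X m ξ₀ :=
  PresentedGroup.toGroup (f := valL ξ₀) (by
    intro r hr
    cases hr with
    | dep a b =>
      simp only [map_mul, map_inv, FreeGroup.lift_apply_of, valL]
      rw [mul_inv_eq_one, ← map_mul, Prod.mk_mul_mk, mul_one]
    | dir e d h =>
      simp only [map_mul, map_inv, FreeGroup.lift_apply_of, valL]
      rw [mul_inv_eq_one, ← iso_mul ξ₀ e d h, ray_mul, ← h]
      have h1 : (SemidirectProduct.inr ((1, iso ξ₀ e * iso ξ₀ d) : CC X m ξ₀) : VX X m ξ₀) =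
          SemidirectProduct.inr ((1, iso ξ₀ e) : CC X m ξ₀) *
          SemidirectProduct.inr ((1, iso ξ₀ d) : CC X m ξ₀) := by
        rw [← map_mul, Prod.mk_mul_mk, mul_one]
      rw [h1]
      group)

theorem val_lt (ξ₀ : ℕ → X) (l : Lt X m) : val ξ₀ (lt l) = valL ξ₀ l :=
  PresentedGroup.toGroup.of _

/-- two copies -/
def twoP (a b : TA X) : Equiv.Perm (Bool × TA X) where
  toFun p := (p.1, (bif p.1 then a else b) * p.2)
  invFun p := (p.1, (bif p.1 then a else b)⁻¹ * p.2)
  left_inv p := by simp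
  right_inv p := by simp

/-- swapping the copies -/
def swP : Equiv.Perm (Bool × TA X) where
  toFun p := (!p.1, p.2)
  invFun p := (!p.1, p.2)
  left_inv p := by simp
  right_inv p := by simp

/-- representation of the locally finite part -/
def repC (ξ₀ : ℕ → X) : CC X m ξ₀ →* Equiv.Perm (Bool × TA X) where
  toFun c := twoP c.1.1 c.2.1
  map_one' := by
    apply Equiv.ext
    rintro ⟨i, x⟩
    cases i <;> simp [twoP]
  map_mul' a b := by
    apply Equiv.ext
    rintro ⟨i, x⟩
    cases i <;> simp [twoP, mul_assoc]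

/-- the representation -/
noncomputable def rep (ξ₀ : ℕ → X) : VX X m ξ₀ →* Equiv.Perm (Bool × TA X) :=
  vlift (repC ξ₀) (fun e => match e with
    | none => swP
    | some ξ => twoP (swapT ξ₀ ξ) 1)

theorem rep_valL (ξ₀ : ℕ → X) (l : Lt X m) (x : TA X) :
    rep ξ₀ (valL ξ₀ l) (true, x) = (true, evL l * x) := by
  rcases l with a | d
  · simp only [valL, rep, vlift_inr, evL]
    rfl
  · simp only [valL, rep, map_mul, map_inv, vlift_inr, vlift_tt, evL, Equiv.Perm.mul_apply]
    have h1 : (twoP (swapT ξ₀ d.ξ) 1 : Equiv.Perm (Bool × TA X))⁻¹ (true, x) =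
        (true, (swapT ξ₀ d.ξ)⁻¹ * x) := rfl
    have h2 : ∀ y : TA X, (swP : Equiv.Perm (Bool × TA X))⁻¹ (true, y) = (false, y) :=
      fun y => rfl
    have h3 : ∀ y : TA X, (repC ξ₀ (1, iso ξ₀ d)) (false, y) = (false, (iso ξ₀ d).1 * y) :=
      fun y => rfl
    have h4 : ∀ y : TA X, (swP : Equiv.Perm (Bool × TA X)) (false, y) = (true, y) :=
      fun y => rfl
    have h5 : ∀ y : TA X, (twoP (swapT ξ₀ (ray d.d d.ξ)) 1 : Equiv.Perm (Bool × TA X)) (true, y) =
      (true, swapT ξ₀ (ray d.d d.ξ) * y) := fun y => rfl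
    rw [h1, h2, h3, h4, h5]
    congr 1
    show swapT ξ₀ (ray d.d d.ξ) * (((swapT ξ₀ (ray d.d d.ξ))⁻¹ * d.d * swapT ξ₀ d.ξ) *
      ((swapT ξ₀ d.ξ)⁻¹ * x)) = d.d * x
    group

theorem rep_val (ξ₀ : ℕ → X) (γ : TT X m) (x : TA X) :
    rep ξ₀ (val ξ₀ γ) (true, x) = (true, ev γ * x) := by
  obtain ⟨w, rfl⟩ := exists_word γ
  induction w generalizing x with
  | nil => simp
  | cons l w ih =>
    rw [valT_cons, map_mul, map_mul, Equiv.Perm.mul_apply, ih, val_lt, rep_valL, map_mul, ev_lt,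
      mul_assoc]

/-- elements killed by `val` act trivially -/
theorem ev_eq_one {ξ₀ : ℕ → X} {γ : TT X m} (h : val ξ₀ γ = 1) : ev γ = 1 := by
  have h1 := rep_val ξ₀ γ 1
  rw [h, map_one] at h1
  have h2 := congrArg Prod.snd h1
  simp only [Equiv.Perm.coe_one, id_eq, mul_one] at h2
  exact h2.symm

theorem LF_CC [Finite X] [Nonempty X] (hm : 1 ≤ m) (ξ₀ : ℕ → X) : LF (CC X m ξ₀) := by
  have := finite_Dep (X := X) (m := m)
  exact LF_prod (LF_BB hm ξ₀)

end Pool.Agent.Lib.Helper67.BA
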