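import Pool.Agent.Lib.Helper67.BA.NoFree
import Pool.Agent.Lib.Helper67.BA.Virt

/-!
# Finitely presented groups of bounded automorphisms are virtually abelian
-/

namespace Pool.Agent.Lib.Helper67.BA

open TA

universe u

variable {X : Type} {m : ℕ}

theorem exists_flat (n : ℕ) : ∀ u : List X, u.length = n * m →
    ∃ v : List (List.Vector X m), v.length = n ∧ flat v = u := by
  induction n with
  | zero =>
    intro u hu
    rw [zero_mul, List.length_eq_zero_iff] at hu
    exact ⟨[], rfl, by rw [hu]; rfl⟩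
  | succ n ih =>
    intro u hu
    have h1 : (n + 1) * m = n * m + m := by ring
    obtain ⟨v, hv, hv2⟩ := ih (u.drop m) (by rw [List.length_drop]; omega)
    have hy : ∃ y : List.Vector X m, y.1 = u.take m :=
      ⟨⟨u.take m, by rw [List.length_take]; omega⟩, rfl⟩
    obtain ⟨y, hy⟩ := hy
    refine ⟨y :: v, by rw [List.length_cons, hv], ?_⟩
    rw [flat_cons, hv2, hy]
    exact List.take_append_drop m u

/-- A homomorphism lifting the wreath recursion. -/
theorem lift_rec {F : Type} [Group F] (Φ : F →* Wr (TT X m) (List.Vector X m)) :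
    ∀ (w w' : F) (y : List.Vector X m) (v : List (List.Vector X m)),
      secs ((Φ (w * w')).f y) v =
        secs ((Φ w).f ((Φ w').p y)) (acts ((Φ w').f y) v) * secs ((Φ w').f y) v := by
  intro w w' y v
  rw [map_mul, Wr.mul_f, secs_mul]

/-- **Dichotomy.** A finitely presented group acting by bounded automorphisms is large, or its
image is virtually abelian. -/
theorem dichotomy [Finite X] [Nonempty X] {G : Type u} [Group G]
    [hG : Group.IsFinitelyPresented G] (j : G →* TA X) (hb : ∀ g, Bdd (j g)) :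
    (∃ H : Subgroup G, H.FiniteIndex ∧ ∀ x ∈ H, ∀ y ∈ H, j (x * y) = j (y * x)) ∨
    ∃ H : Subgroup G, H.FiniteIndex ∧ ∃ f : H →* FreeGroup Bool, Function.Surjective f := by
  classical
  obtain ⟨k, φ, hφ, R, hR, hRφ⟩ := hG.out
  let Φ₀ : FreeGroup (Fin k) →* TA X := j.comp φ
  -- the block length
  choose m₀ hm₀ using fun i : Fin k => norm (hb (φ (FreeGroup.of i)))
  obtain ⟨M, hM⟩ := (Set.finite_range m₀).bddAbove
  obtain ⟨m, hm, hm1⟩ : ∃ m, (∀ i, m₀ i ≤ m) ∧ 1 ≤ m :=
    ⟨max M 1, fun i => (hM ⟨i, rfl⟩).trans (le_max_left _ _), le_max_right _ _⟩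
  have hlet : ∀ (i : Fin k) (y : List.Vector X m), ∃ l : Lt X m,
      evL l = sec (Φ₀ (FreeGroup.of i)) y.1 := by
    intro i y
    rcases hm₀ i m (hm i) y.1 y.2 with h | ⟨ξ, h⟩
    · exact ⟨Sum.inl ⟨_, h⟩, rfl⟩
    · exact ⟨Sum.inr ⟨_, ξ, h⟩, rfl⟩
  choose l hl using hlet
  let Φ : FreeGroup (Fin k) →* Wr (TT X m) (List.Vector X m) :=
    FreeGroup.lift fun i => ⟨fun y => lt (l i y), rootY m (Φ₀ (FreeGroup.of i))⟩
  have hΦ : ∀ w, (∀ y, ev ((Φ w).f y) = sec (Φ₀ w) y.1) ∧ (Φ w).p = rootY m (Φ₀ w) := by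
    have key : ∀ w, (⟨fun y => ev ((Φ w).f y), (Φ w).p⟩ :
        Wr (TA X) (List.Vector X m)) = wrec m (Φ₀ w) := by
      intro w
      let F : Wr (TT X m) (List.Vector X m) →* Wr (TA X) (List.Vector X m) :=
        { toFun := fun a => ⟨fun y => ev (a.f y), a.p⟩
          map_one' := by
            ext y
            · simp
            · simp
          map_mul' := by
            intro a b
            ext y
            · simp
            · simp }
      have h1 : F.comp Φ = (wrec m).comp Φ₀ := by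
        apply FreeGroup.ext_hom
        intro i
        have h2 : Φ (FreeGroup.of i) =
            ⟨fun y => lt (l i y), rootY m (Φ₀ (FreeGroup.of i))⟩ := by
          simp [Φ]
        show F (Φ (FreeGroup.of i)) = wrec m (Φ₀ (FreeGroup.of i))
        rw [h2]
        show (⟨fun y => ev (lt (l i y)), rootY m (Φ₀ (FreeGroup.of i))⟩ :
          Wr (TA X) (List.Vector X m)) = ⟨fun y => sec (Φ₀ (FreeGroup.of i)) y.1, _⟩
        congr 1
        funext y
        rw [ev_lt, hl]
      exact DFunLike.congr_fun h1 w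
    intro w
    exact ⟨fun y => congrFun (congrArg Wr.f (key w)) y, congrArg Wr.p (key w)⟩
  have hS := lift_rec Φ
  -- a level at which all relators have trivial sections
  obtain ⟨n, hn⟩ : ∃ n, ∀ r ∈ R, ∀ y (v : List (List.Vector X m)), v.length = n →
      secs ((Φ r).f y) v = 1 := by
    have h1 : ∀ (r : FreeGroup (Fin k)) (y : List.Vector X m), ∃ n, r ∈ R →
        ∀ v : List (List.Vector X m), v.length = n → secs ((Φ r).f y) v = 1 := by
      intro r y
      by_cases hr : r ∈ R
      · have h2 : Φ₀ r = 1 := by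
          have h3 : r ∈ φ.ker := hRφ ▸ Subgroup.subset_normalClosure hr
          show j (φ r) = 1
          rw [MonoidHom.mem_ker.1 h3, map_one]
        have h3 : ev ((Φ r).f y) = 1 := by rw [(hΦ r).1, h2, sec_one]
        obtain ⟨n, hn⟩ := good hm1 h3
        exact ⟨n, fun _ => hn⟩
      · exact ⟨0, fun h => absurd h hr⟩
    choose nn hnn using h1
    have hfin : (⋃ r ∈ R, Set.range (nn r)).Finite := hR.biUnion fun r _ => Set.finite_range _
    obtain ⟨N, hN⟩ := hfin.bddAbove
    refine ⟨N, fun r hr y v hv => ?_⟩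
    exact Good.mono (hN (Set.mem_biUnion hr ⟨y, rfl⟩)) (hnn r y hr) v hv
  -- the kernel
  have hone : ∀ w, Φ₀ w = 1 → ∀ y v, (Φ w).p y = y ∧ acts ((Φ w).f y) v = v := by
    intro w hw y v
    refine ⟨?_, ?_⟩
    · rw [(hΦ w).2, hw, map_one]; rfl
    · apply acts_eq_self
      rw [(hΦ w).1, hw, sec_one, one_apply]
  let K : Subgroup (FreeGroup (Fin k)) :=
    { carrier := {w | Φ₀ w = 1 ∧ ∀ y (v : List (List.Vector X m)), v.length = n →
        secs ((Φ w).f y) v = 1}
      one_mem' := ⟨map_one _, fun y v _ => by rw [map_one, Wr.one_f, secs_one]⟩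
      mul_mem' := by
        rintro a b ⟨ha, ha2⟩ ⟨hb, hb2⟩
        refine ⟨by rw [map_mul, ha, hb, one_mul], fun y v hv => ?_⟩
        rw [hS, (hone b hb y v).1, (hone b hb y v).2, ha2 y v hv, hb2 y v hv, one_mul]
      inv_mem' := by
        rintro a ⟨ha, ha2⟩
        refine ⟨by rw [map_inv, ha, inv_one], fun y v hv => ?_⟩
        have h1 := hS a⁻¹ a y v
        rw [inv_mul_cancel, map_one, Wr.one_f, secs_one, (hone a ha y v).1, (hone a ha y v).2,
          ha2 y v hv, mul_one] at h1
        exact h1.symm }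
  have hKn : K.Normal := by
    constructor
    rintro w ⟨hw, hw2⟩ g
    refine ⟨by rw [map_mul, map_mul, hw, mul_one, map_inv, mul_inv_cancel], fun y v hv => ?_⟩
    have h1 := hS (g * w) g⁻¹ y v
    have h2 := hS g w ((Φ g⁻¹).p y) (acts ((Φ g⁻¹).f y) v)
    rw [(hone w hw _ v).1, (hone w hw _ (acts ((Φ g⁻¹).f y) v)).2,
      hw2 _ _ (by rw [length_acts, hv]), mul_one] at h2
    rw [h1, h2, ← hS, mul_inv_cancel, map_one, Wr.one_f, secs_one]
  have hker : ∀ w, φ w = 1 → ∀ y (v : List (List.Vector X m)), v.length = n →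
        secs ((Φ w).f y) v = 1 := by
    intro w hw
    have h1 : w ∈ φ.ker := hw
    rw [← hRφ] at h1
    have h2 : Subgroup.normalClosure R ≤ K := by
      apply Subgroup.normalClosure_le_normal
      intro r hr
      refine ⟨?_, hn r hr⟩
      have h3 : r ∈ φ.ker := hRφ ▸ Subgroup.subset_normalClosure hr
      show j (φ r) = 1
      rw [MonoidHom.mem_ker.1 h3, map_one]
    exact (h2 h1).2
  -- the level stabilizer
  let Fn : Subgroup (FreeGroup (Fin k)) := ((rootY ((n + 1) * m)).comp Φ₀).ker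
  have hFn : ∀ w ∈ Fn, ∀ u : List X, u.length = (n + 1) * m → Φ₀ w u = u := by
    intro w hw u hu
    have h1 : rootY ((n + 1) * m) (Φ₀ w) = 1 := hw
    exact congrArg (fun p : Equiv.Perm (List.Vector X ((n + 1) * m)) => (p ⟨u, hu⟩).1) h1
  have hfix : ∀ w ∈ Fn, ∀ (y : List.Vector X m) (v : List (List.Vector X m)), v.length = n →
      (Φ w).p y = y ∧ acts ((Φ w).f y) v = v := by
    intro w hw y v hv
    have h1 := hFn w hw (y.1 ++ flat v) (by
      rw [List.length_append, length_flat, y.2, hv]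
      ring)
    rw [TA.append] at h1
    have h2 : Φ₀ w y.1 = y.1 := List.append_inj_left h1 (TA.length _ _)
    have h3 : sec (Φ₀ w) y.1 (flat v) = flat v := by
      rw [h2] at h1
      exact List.append_cancel_left h1
    refine ⟨?_, ?_⟩
    · rw [(hΦ w).2]
      exact Subtype.ext h2
    · apply acts_eq_self
      rw [(hΦ w).1, h3]
  have hFnfi : Fn.FiniteIndex := by
    have : Finite ((rootY ((n + 1) * m)).comp Φ₀).range := inferInstance
    infer_instance
  have hFnfg : Group.FG Fn := Subgroup.fg_of_index_ne_zero Fn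
  -- sections in the letter group
  let c : List.Vector X m → List.Vector (List.Vector X m) n → (Fn →* TT X m) := fun y v =>
    { toFun := fun w => secs ((Φ w.1).f y) v.1
      map_one' := by
        show secs ((Φ 1).f y) v.1 = 1
        rw [map_one, Wr.one_f, secs_one]
      map_mul' := by
        intro a b
        show secs ((Φ (a.1 * b.1)).f y) v.1 = _
        rw [hS, (hfix b.1 b.2 y v.1 v.2).1, (hfix b.1 b.2 y v.1 v.2).2] }
  obtain ⟨x₀⟩ := ‹Nonempty X›
  have : Nonempty X := ⟨x₀⟩
  let ξ₀ : ℕ → X := fun _ => x₀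
  let h : List.Vector X m × List.Vector (List.Vector X m) n → (Fn →* VX X m ξ₀) := fun q =>
    (val ξ₀).comp (c q.1 q.2)
  let κ : List.Vector X m × List.Vector (List.Vector X m) n → (Fn →* CC X m ξ₀) := fun q =>
    SemidirectProduct.rightHom.comp (h q)
  have hκ : ∀ q, (κ q).ker.FiniteIndex := by
    intro q
    have h1 : Group.FG (κ q).range := Group.fg_of_surjective (κ q).rangeRestrict_surjective
    have : Finite (κ q).range := LF_CC hm1 ξ₀ _ h1
    infer_instance
  let F0 : Subgroup Fn := ⨅ q, (κ q).ker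
  have hF0 : F0.FiniteIndex := Subgroup.finiteIndex_iInf hκ
  have hright : ∀ (q) (w : F0), (h q w.1).right = 1 := by
    intro q w
    have h1 := (Subgroup.mem_iInf.1 w.2) q
    exact h1
  let f : List.Vector X m × List.Vector (List.Vector X m) n →
      (F0 →* FreeGroup (CC X m ξ₀ × Option (ℕ → X))) := fun q =>
    { toFun := fun w => (h q w.1).left
      map_one' := by
        show (h q 1).left = 1
        rw [map_one]
        rfl
      map_mul' := by
        intro a b
        show (h q (a.1 * b.1)).left = _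
        rw [map_mul, SemidirectProduct.mul_left, hright q a, map_one]
        rfl }
  have hf1 : ∀ w : F0, (∀ q, f q w = 1) → Φ₀ w.1.1 = 1 := by
    intro w hw
    apply eq_one_of _ ((n + 1) * m)
    intro u hu
    refine ⟨hFn _ w.1.2 u hu, ?_⟩
    obtain ⟨v, hv, rfl⟩ := exists_flat (n + 1) u hu
    rcases v with _ | ⟨y, v⟩
    · simp at hv
    · have hv' : v.length = n := by simpa using hv
      have h1 : h (y, ⟨v, hv'⟩) w.1 = 1 :=
        SemidirectProduct.ext (hw (y, ⟨v, hv'⟩)) (hright (y, ⟨v, hv'⟩) w)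
      have h2 : ev (secs ((Φ w.1.1).f y) v) = 1 := ev_eq_one (ξ₀ := ξ₀) h1
      rw [flat_cons, sec_append, ← (hΦ w.1.1).1, ← ev_secs]
      exact h2
  -- the subgroup of finite index
  have hindex : ((F0.map Fn.subtype).map φ).FiniteIndex := by
    constructor
    intro h0
    have h1 := Subgroup.index_map_dvd (F0.map Fn.subtype) hφ
    rw [h0, zero_dvd_iff, Subgroup.index_map_subtype] at h1
    rcases mul_eq_zero.1 h1 with h1 | h1
    · exact hF0.index_ne_zero h1
    · exact hFnfi.index_ne_zero h1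
  by_cases hcomm : ∀ (q) (a b : F0), f q a * f q b = f q b * f q a
  · left
    refine ⟨(F0.map Fn.subtype).map φ, hindex, ?_⟩
    rintro _ ⟨_, ⟨a, ha, rfl⟩, rfl⟩ _ ⟨_, ⟨b, hb, rfl⟩, rfl⟩
    have h1 := hf1 (⟨a, ha⟩ * ⟨b, hb⟩ * (⟨b, hb⟩ * ⟨a, ha⟩)⁻¹) (by
      intro q
      rw [map_mul, map_mul, map_inv, map_mul, mul_inv_eq_one]
      exact hcomm q _ _)
    have h2 : j (φ (a.1 * b.1 * (b.1 * a.1)⁻¹)) = 1 := h1
    rw [map_mul, map_inv, map_mul, map_inv, mul_inv_eq_one, map_mul φ, map_mul φ] at h2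
    exact h2
  · right
    push Not at hcomm
    obtain ⟨q, a, b, hab⟩ := hcomm
    refine ⟨(F0.map Fn.subtype).map φ, hindex, ?_⟩
    -- the map from `F0` onto the subgroup
    let φ' : F0 →* ((F0.map Fn.subtype).map φ : Subgroup G) :=
      { toFun := fun w => ⟨φ w.1.1, _, ⟨w.1, w.2, rfl⟩, rfl⟩
        map_one' := Subtype.ext (map_one φ)
        map_mul' := fun x y => Subtype.ext (map_mul φ _ _) }
    have hφ' : Function.Surjective φ' := by
      rintro ⟨_, ⟨_, ⟨a, ha, rfl⟩, rfl⟩⟩
      exact ⟨⟨a, ha⟩, rfl⟩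
    have hkk : φ'.ker ≤ (f q).ker := by
      intro w hw
      have h1 : φ w.1.1 = 1 := congrArg Subtype.val (MonoidHom.mem_ker.1 hw)
      have h2 := hker w.1.1 h1 q.1 q.2.1 q.2.2
      rw [MonoidHom.mem_ker]
      show (val ξ₀ (secs ((Φ w.1.1).f q.1) q.2.1)).left = 1
      rw [h2, map_one]
      rfl
    let g := MonoidHom.liftOfSurjective φ' hφ' ⟨f q, hkk⟩
    have hg : ∀ w, g (φ' w) = f q w := fun w =>
      MonoidHom.liftOfRightInverse_comp_apply φ' _ _ ⟨f q, hkk⟩ w
    exact exists_surj_of_noncomm g (φ' a) (φ' b) (by rw [hg, hg]; exact hab)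

/-- **Main theorem.** Finitely presented groups of bounded automorphisms are virtually
abelian. -/
theorem main [Finite X] [Nonempty X] {G : Type u} [Group G] [hG : Group.IsFinitelyPresented G]
    (j : G →* TA X) (hj : Function.Injective j) (hb : ∀ g, Bdd (j g)) :
    ∃ H : Subgroup G, H.FiniteIndex ∧ ∀ x ∈ H, ∀ y ∈ H, x * y = y * x := by
  rcases dichotomy j hb with ⟨H, h1, h2⟩ | ⟨H, -, f, hf⟩
  · exact ⟨H, h1, fun x hx y hy => hj (h2 x hx y hy)⟩
  · exfalso
    choose s hs using hf
    let ψ : FreeGroup Bool →* H := FreeGroup.lift fun c => s (FreeGroup.of c)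
    have hψ : ∀ u, f (ψ u) = u := by
      intro u
      have h1 : f.comp ψ = MonoidHom.id _ := by
        ext c
        simp [ψ, hs]
      exact DFunLike.congr_fun h1 u
    refine no_free (j.comp (H.subtype.comp ψ)) ?_ (fun u => hb _)
    apply hj.comp
    apply (Subgroup.subtype_injective H).comp
    intro u v huv
    rw [← hψ u, ← hψ v, huv]

end Pool.Agent.Lib.Helper67.BA
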