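import Pool.Agent.Lib.Helper67.BA.Tree

/-!
# Rays, directed automorphisms
-/

namespace Pool.Agent.Lib.Helper67.BA

open TA

variable {X : Type}

/-- prefix of length `n` of a ray -/
def pref (ξ : ℕ → X) (n : ℕ) : List X := (List.range n).map ξ

/-- shifted ray -/
def shift (k : ℕ) (ξ : ℕ → X) : ℕ → X := fun i => ξ (k + i)

@[simp] theorem length_pref (ξ : ℕ → X) (n : ℕ) : (pref ξ n).length = n := by simp [pref]

@[simp] theorem pref_zero (ξ : ℕ → X) : pref ξ 0 = [] := rfl

@[simp] theorem shift_zero (ξ : ℕ → X) : shift 0 ξ = ξ := by funext i; simp [shift]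

theorem shift_shift (a b : ℕ) (ξ : ℕ → X) : shift a (shift b ξ) = shift (b + a) ξ := by
  funext i
  simp [shift, add_assoc]

theorem pref_add (ξ : ℕ → X) (a b : ℕ) : pref ξ (a + b) = pref ξ a ++ pref (shift a ξ) b := by
  rw [pref, List.range_add, List.map_append, List.map_map]
  rfl

theorem pref_get (ξ : ℕ → X) (n i : ℕ) (h : i < n) :
    (pref ξ n)[i]'(by rw [length_pref]; exact h) = ξ i := by
  simp [pref]

theorem ray_ext {ξ η : ℕ → X} (h : ∀ n, pref ξ n = pref η n) : ξ = η := by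
  funext i
  have h1 := pref_get ξ (i + 1) i (by omega)
  have h2 := pref_get η (i + 1) i (by omega)
  rw [← h1, ← h2]
  have h3 := h (i + 1)
  congr 1

/-- image of a ray -/
noncomputable def ray (g : TA X) (ξ : ℕ → X) : ℕ → X := fun i =>
  (g (pref ξ (i + 1)))[i]'(by rw [TA.length, length_pref]; omega)

theorem pref_ray (g : TA X) (ξ : ℕ → X) (n : ℕ) : pref (ray g ξ) n = g (pref ξ n) := by
  apply List.ext_getElem
  · rw [TA.length, length_pref, length_pref]
  · intro i h1 h2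
    rw [length_pref] at h1
    rw [pref_get _ _ _ h1]
    have h3 : pref ξ n = pref ξ (i + 1) ++ pref (shift (i + 1) ξ) (n - (i + 1)) := by
      rw [← pref_add]; congr 1; omega
    obtain ⟨u, hu⟩ := TA.pre g (pref ξ (i + 1)) (pref (shift (i + 1) ξ) (n - (i + 1)))
    rw [← h3] at hu
    have h4 : (g (pref ξ n))[i] = (g (pref ξ (i + 1)) ++ u)[i]'(by rw [hu]; exact h2) := by
      congr 1; exact hu.symm
    rw [h4, List.getElem_append_left]
    rfl

theorem ray_eq_iff {g : TA X} {ξ η : ℕ → X} : ray g ξ = η ↔ ∀ n, g (pref ξ n) = pref η n := by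
  constructor
  · rintro rfl n; exact (pref_ray g ξ n).symm
  · intro h
    apply ray_ext
    intro n
    rw [pref_ray, h]

@[simp] theorem ray_one (ξ : ℕ → X) : ray 1 ξ = ξ := ray_eq_iff.2 fun n => rfl

theorem ray_mul (g h : TA X) (ξ : ℕ → X) : ray (g * h) ξ = ray g (ray h ξ) :=
  ray_eq_iff.2 fun n => by rw [pref_ray, pref_ray, TA.mul_apply]

theorem ray_inv_ray (g : TA X) (ξ : ℕ → X) : ray g⁻¹ (ray g ξ) = ξ := by
  rw [← ray_mul, inv_mul_cancel, ray_one]

theorem ray_ray_inv (g : TA X) (ξ : ℕ → X) : ray g (ray g⁻¹ ξ) = ξ := by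
  rw [← ray_mul, mul_inv_cancel, ray_one]

theorem ray_inj {g : TA X} {ξ η : ℕ → X} (h : ray g ξ = ray g η) : ξ = η := by
  rw [← ray_inv_ray g ξ, h, ray_inv_ray]

theorem shift_ray (g : TA X) (ξ : ℕ → X) (k : ℕ) :
    shift k (ray g ξ) = ray (sec g (pref ξ k)) (shift k ξ) := by
  apply ray_ext
  intro n
  have h1 := pref_add (ray g ξ) k n
  rw [pref_ray, pref_ray, pref_add, TA.append] at h1
  rw [pref_ray]
  exact (List.append_cancel_left h1).symm

variable (X) in
/-- finitary automorphisms of depth at most `m` -/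
def Dep (m : ℕ) : Subgroup (TA X) where
  carrier := {g | ∀ v : List X, v.length = m → sec g v = 1}
  mul_mem' := by
    intro g h hg hh v hv
    rw [sec_mul, hg _ (by rw [TA.length]; exact hv), hh v hv, mul_one]
  one_mem' := fun v _ => sec_one v
  inv_mem' := by
    intro g hg v hv
    rw [sec_inv, hg _ (by rw [TA.length]; exact hv), inv_one]

theorem mem_Dep {m : ℕ} {g : TA X} : g ∈ Dep X m ↔ ∀ v : List X, v.length = m → sec g v = 1 :=
  Iff.rfl

theorem Dep_sec {m : ℕ} {g : TA X} (hg : g ∈ Dep X m) {v : List X} (hv : m ≤ v.length) :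
    sec g v = 1 := by
  rw [← List.take_append_drop m v, sec_append, hg _ (by rw [List.length_take]; omega), sec_one]

theorem Dep_mono {m n : ℕ} (h : m ≤ n) : Dep X m ≤ Dep X n := by
  intro g hg v hv
  exact Dep_sec hg (by omega)

/-- `d` is directed along the ray `ξ` (with blocks of length `m`): sections at words leaving the
ray at a block are finitary of depth at most `m`. -/
def Dir (m : ℕ) (d : TA X) (ξ : ℕ → X) : Prop :=
  ∀ j : ℕ, ∀ z : List X, z.length = m → z ≠ pref (shift (j * m) ξ) m →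
    sec d (pref ξ (j * m) ++ z) ∈ Dep X m

theorem Dir.one {m : ℕ} {ξ : ℕ → X} : Dir m (1 : TA X) ξ := by
  intro j z _ _
  rw [sec_one]
  exact one_mem _

theorem dir_aux {m : ℕ} {d : TA X} {ξ : ℕ → X} {j : ℕ} {z : List X} (hz : z.length = m)
    (h : z ≠ pref (shift (j * m) ξ) m) : ∃ z' : List X, z'.length = m ∧
      d (pref ξ (j * m) ++ z) = pref (ray d ξ) (j * m) ++ z' ∧
      z' ≠ pref (shift (j * m) (ray d ξ)) m := by
  refine ⟨sec d (pref ξ (j * m)) z, by rw [TA.length]; exact hz, ?_, ?_⟩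
  · rw [TA.append, pref_ray]
  · intro h1
    apply h
    rw [shift_ray, pref_ray] at h1
    exact TA.inj _ h1

theorem Dir.mul {m : ℕ} {e d : TA X} {ξ : ℕ → X} (he : Dir m e (ray d ξ)) (hd : Dir m d ξ) :
    Dir m (e * d) ξ := by
  intro j z hz hz2
  obtain ⟨z', h1, h2, h3⟩ := dir_aux (d := d) hz hz2
  rw [sec_mul, h2]
  exact mul_mem (he j z' h1 h3) (hd j z hz hz2)

theorem Dir.inv {m : ℕ} {d : TA X} {ξ : ℕ → X} (hd : Dir m d ξ) : Dir m d⁻¹ (ray d ξ) := by
  intro j z hz hz2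
  obtain ⟨z', h1, h2, h3⟩ := dir_aux (d := d⁻¹) hz hz2
  rw [ray_inv_ray] at h2 h3
  rw [sec_inv, h2]
  exact inv_mem (hd j z' h1 h3)

theorem Dir.sec {m : ℕ} {d : TA X} {ξ : ℕ → X} (hd : Dir m d ξ) :
    Dir m (TA.sec d (pref ξ m)) (shift m ξ) := by
  intro j z hz hz2
  rw [shift_shift] at hz2
  have h1 := hd (j + 1) z hz (by
    have : (j + 1) * m = m + j * m := by ring
    rw [this]; exact hz2)
  have h2 : pref ξ ((j + 1) * m) = pref ξ m ++ pref (shift m ξ) (j * m) := by
    rw [← pref_add]; congr 1; ring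
  rwa [h2, List.append_assoc, sec_append] at h1

theorem Dir.off {m : ℕ} {d : TA X} {ξ : ℕ → X} (hd : Dir m d ξ) {z : List X}
    (hz : z.length = m) (hz2 : z ≠ pref ξ m) : TA.sec d z ∈ Dep X m := by
  have h1 := hd 0 z hz (by simpa using hz2)
  simpa using h1

theorem Dir.off_image {m : ℕ} {d : TA X} {ξ : ℕ → X} {z : List X}
    (hz2 : z ≠ pref ξ m) : d z ≠ pref (ray d ξ) m := by
  rw [pref_ray]
  exact fun h => hz2 (TA.inj _ h)

end Pool.Agent.Lib.Helper67.BA
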