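import Mathlib

/-!
# Automorphisms of the rooted tree of finite words, sections
-/

namespace Pool.Agent.Lib.Helper67.BA

variable {X : Type}

/-- Automorphisms of the rooted tree `X^*` of finite words: permutations of the set of words which
preserve the length and the relation of being a prefix. -/
def IsTreeAut (g : Equiv.Perm (List X)) : Prop :=
  (∀ w : List X, (g w).length = w.length) ∧ ∀ v w : List X, g v <+: g (v ++ w)

theorem perm_apply_inv (g : Equiv.Perm (List X)) (w : List X) : g (g⁻¹ w) = w :=
  Equiv.apply_symm_apply _ _

theorem IsTreeAut.inv {g : Equiv.Perm (List X)} (hg : IsTreeAut g) : IsTreeAut g⁻¹ := by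
  have hlen : ∀ w : List X, (g⁻¹ w).length = w.length := by
    intro w
    have := hg.1 (g⁻¹ w)
    rw [perm_apply_inv] at this
    exact this.symm
  refine ⟨hlen, fun v w => ?_⟩
  have h1 : g ((g⁻¹ (v ++ w)).take v.length) <+: v ++ w := by
    have h2 := hg.2 ((g⁻¹ (v ++ w)).take v.length) ((g⁻¹ (v ++ w)).drop v.length)
    rwa [List.take_append_drop, perm_apply_inv] at h2
  have h2 : (g ((g⁻¹ (v ++ w)).take v.length)).length = v.length := by
    rw [hg.1, List.length_take, hlen, List.length_append]
    omega
  have h3 : g ((g⁻¹ (v ++ w)).take v.length) = v := by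
    have h4 := List.prefix_iff_eq_take.1 h1
    rw [h2, List.take_left] at h4
    exact h4
  have h4 : g⁻¹ v = (g⁻¹ (v ++ w)).take v.length := by
    rw [Equiv.Perm.inv_eq_iff_eq]
    exact h3.symm
  rw [h4]
  exact List.take_prefix _ _

variable (X) in
/-- The group of automorphisms of the rooted tree. -/
def TA : Subgroup (Equiv.Perm (List X)) where
  carrier := {g | IsTreeAut g}
  mul_mem' := by
    intro g h hg hh
    refine ⟨fun w => ?_, fun v w => ?_⟩
    · show (g (h w)).length = w.length
      rw [hg.1, hh.1]
    · show g (h v) <+: g (h (v ++ w))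
      obtain ⟨u, hu⟩ := hh.2 v w
      rw [← hu]
      exact hg.2 _ _
  one_mem' := ⟨fun _ => rfl, fun v w => List.prefix_append v w⟩
  inv_mem' := by
    intro g hg
    exact hg.inv

namespace TA

/-- action on words -/
instance : CoeFun (TA X) (fun _ => List X → List X) := ⟨fun g => (g : Equiv.Perm (List X))⟩

theorem length (g : TA X) (w : List X) : (g w).length = w.length := g.2.1 w

theorem pre (g : TA X) (v w : List X) : g v <+: g (v ++ w) := g.2.2 v w

@[simp] theorem mul_apply (g h : TA X) (w : List X) : (g * h) w = g (h w) := rfl

@[simp] theorem one_apply (w : List X) : (1 : TA X) w = w := rfl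

@[simp] theorem inv_apply_self (g : TA X) (w : List X) : g⁻¹ (g w) = w :=
  Equiv.symm_apply_apply _ _

@[simp] theorem apply_inv_self (g : TA X) (w : List X) : g (g⁻¹ w) = w :=
  Equiv.apply_symm_apply _ _

theorem inj (g : TA X) {v w : List X} (h : g v = g w) : v = w :=
  (g : Equiv.Perm (List X)).injective h

@[ext] theorem ext {g h : TA X} (H : ∀ w, g w = h w) : g = h :=
  Subtype.ext (Equiv.ext H)

@[simp] theorem map_nil (g : TA X) : g [] = [] := by
  have := length g []
  exact List.length_eq_zero_iff.1 this

/-- the section as a function -/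
def secFun (g : TA X) (v w : List X) : List X := (g (v ++ w)).drop v.length

theorem app (g : TA X) (v w : List X) : g (v ++ w) = g v ++ secFun g v w := by
  obtain ⟨u, hu⟩ := pre g v w
  rw [secFun, ← hu, ← length g v, List.drop_left]

/-- The section of `g` at the word `v`. -/
def sec (g : TA X) (v : List X) : TA X :=
  ⟨{ toFun := secFun g v
     invFun := secFun g⁻¹ (g v)
     left_inv := fun w => by
      have h1 := app g v w
      have h2 := app g⁻¹ (g v) (secFun g v w)
      rw [← h1, inv_apply_self, inv_apply_self] at h2
      exact (List.append_cancel_left h2).symm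
     right_inv := fun w => by
      have h1 := app g⁻¹ (g v) w
      rw [inv_apply_self] at h1
      have h2 := app g v (secFun g⁻¹ (g v) w)
      rw [← h1, apply_inv_self] at h2
      exact (List.append_cancel_left h2).symm },
   by
    refine ⟨fun w => ?_, fun w u => ?_⟩
    · show (secFun g v w).length = w.length
      have h1 := congrArg List.length (app g v w)
      rw [List.length_append, length g, length g, List.length_append] at h1
      omega
    · show secFun g v w <+: secFun g v (w ++ u)
      obtain ⟨t, ht⟩ := pre g (v ++ w) u
      rw [List.append_assoc, app g v w, app g v (w ++ u), List.append_assoc] at ht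
      exact ⟨t, List.append_cancel_left ht⟩⟩

theorem append (g : TA X) (v w : List X) : g (v ++ w) = g v ++ sec g v w := app g v w

theorem sec_unique {g : TA X} {v : List X} {h : TA X} (H : ∀ w, g (v ++ w) = g v ++ h w) :
    sec g v = h := by
  ext1 w
  have h1 := H w
  rw [append] at h1
  exact List.append_cancel_left h1

@[simp] theorem sec_nil (g : TA X) : sec g [] = g := sec_unique fun w => by simp

@[simp] theorem sec_one (v : List X) : sec (1 : TA X) v = 1 := sec_unique fun w => by simp

theorem sec_mul (g h : TA X) (v : List X) : sec (g * h) v = sec g (h v) * sec h v :=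
  sec_unique fun w => by
    rw [mul_apply, append h v w, append g (h v) (sec h v w)]
    rfl

theorem sec_inv (g : TA X) (v : List X) : sec g⁻¹ v = (sec g (g⁻¹ v))⁻¹ := by
  have h1 := sec_mul g g⁻¹ v
  rw [mul_inv_cancel, sec_one] at h1
  exact (inv_eq_of_mul_eq_one_right h1.symm).symm

theorem sec_append (g : TA X) (v w : List X) : sec g (v ++ w) = sec (sec g v) w :=
  sec_unique fun u => by
    rw [List.append_assoc, append g v (w ++ u), append g v w, append (sec g v) w u,
      List.append_assoc]

/-- An automorphism which fixes all words of length `n` and has trivial sections there is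
trivial. -/
theorem eq_one_of [Nonempty X] (g : TA X) (n : ℕ)
    (h : ∀ v : List X, v.length = n → g v = v ∧ sec g v = 1) : g = 1 := by
  ext1 w
  obtain ⟨x⟩ := ‹Nonempty X›
  rw [one_apply]
  by_cases hw : n ≤ w.length
  · have h1 := h (w.take n) (by rw [List.length_take]; omega)
    have h2 := append g (w.take n) (w.drop n)
    rw [h1.1, h1.2, List.take_append_drop, one_apply, List.take_append_drop] at h2
    exact h2
  · -- extend `w`
    have h1 := (h (w ++ List.replicate (n - w.length) x) (by simp; omega)).1
    rw [append] at h1
    exact List.append_inj_left h1 (length g w)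

theorem eq_of [Nonempty X] (g g' : TA X) (n : ℕ)
    (h : ∀ v : List X, v.length = n → g v = g' v ∧ sec g v = sec g' v) : g = g' := by
  have h1 : g'⁻¹ * g = 1 := by
    apply eq_one_of _ n
    intro v hv
    obtain ⟨h2, h3⟩ := h v hv
    constructor
    · rw [mul_apply, h2, inv_apply_self]
    · rw [sec_mul, sec_inv, h2, inv_apply_self, h3, inv_mul_cancel]
  rw [inv_mul_eq_one] at h1
  exact h1.symm

theorem sec_pow_of_fixed {g : TA X} {v : List X} (h : g v = v) (k : ℕ) :
    (g ^ k) v = v ∧ sec (g ^ k) v = (sec g v) ^ k := by
  induction k with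
  | zero => simp
  | succ k ih =>
    rw [pow_succ, pow_succ]
    refine ⟨?_, ?_⟩
    · rw [mul_apply, h, ih.1]
    · rw [sec_mul, h, ih.2]

end TA

end Pool.Agent.Lib.Helper67.BA
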